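import Pool.Agent.K7.H52.NM.Main
import Pool.Agent.K7.H52.SP.Poly

/-!
Dirichlet polynomials and products of values of zeta as factors.
-/

set_option autoImplicit false

open MeasureTheory Filter Topology Set Real

namespace Pool.Agent.K7.H52.NM

open Pool.Agent.Y757.LS Pool.Agent.K7.H52.SP

/-- `log⁺ |ζ G|` on the line -/
noncomputable def zl (G : ℂ → ℂ) (u : ℝ) : ℝ :=
  log⁺ ‖riemannZeta (1 / 2 + u * Complex.I) * G (1 / 2 + u * Complex.I)‖

lemma half_ne_one (u : ℝ) : (1 / 2 + (u : ℂ) * Complex.I) ≠ 1 := by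
  intro h
  have := congrArg Complex.re h
  norm_num at this

lemma GG_le_zeta (u : ℝ) :
    ‖GG (1 / 2 + u * Complex.I)‖ ≤ ‖riemannZeta (1 / 2 + u * Complex.I)‖ := by
  rw [GG_of_ne (half_ne_one u), norm_mul]
  have h := ratio_le (s := 1 / 2 + u * Complex.I) (by simp; norm_num)
  have := norm_nonneg (riemannZeta (1 / 2 + u * Complex.I))
  nlinarith

lemma gl_le_zl (G : ℂ → ℂ) (u : ℝ) : gl G u ≤ zl G u := by
  unfold gl zl
  refine posLog_le_posLog (norm_nonneg _) ?_
  rw [norm_mul, norm_mul]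
  exact mul_le_mul_of_nonneg_right (GG_le_zeta u) (norm_nonneg _)

lemma zeta_line_cont : Continuous fun u : ℝ => riemannZeta (1 / 2 + u * Complex.I) := by
  rw [continuous_iff_continuousAt]
  intro u
  exact ContinuousAt.comp (f := fun u : ℝ => (1 / 2 : ℂ) + u * Complex.I)
    (zeta_an (half_ne_one u)).continuousAt (by fun_prop)

lemma line_cont {A η W T : ℝ} {G : ℂ → ℂ} (hA : 2 ≤ A) (h : Cls A η W T G) :
    Continuous fun u : ℝ => G (1 / 2 + u * Complex.I) := by
  rw [continuous_iff_continuousAt]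
  intro u
  have hre : (1 / 2 + (u : ℂ) * Complex.I).re = 1 / 2 := by simp
  exact ContinuousAt.comp (f := fun u : ℝ => (1 / 2 : ℂ) + u * Complex.I)
    (h.an _ hre.ge (by rw [hre]; linarith)).continuousAt (by fun_prop)

lemma zl_cont {A η W T : ℝ} {G : ℂ → ℂ} (hA : 2 ≤ A) (h : Cls A η W T G) : Continuous (zl G) :=
  continuous_posLog.comp (zeta_line_cont.mul (line_cont hA h)).norm

theorem no_cancel_zl {κ A : ℝ} (hκ : 0 < κ) (hA : 2 ≤ A) :
    ∃ η W T₀ : ℝ, 0 < η ∧ 0 < W ∧ 3 ≤ T₀ ∧ ∀ T : ℝ, T₀ ≤ T →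
      T ^ κ ≤ ‖riemannZeta (1 / 2 + T * Complex.I)‖ → ∀ G : ℂ → ℂ, Cls A η W T G →
        η * Real.log T < ∫ u in (T - W)..(T + W), zl G u := by
  obtain ⟨η, W, T₀, h1, h2, h3, h⟩ := no_cancel hκ hA
  refine ⟨η, W, T₀, h1, h2, h3, fun T hT hbig G hG => ?_⟩
  refine lt_of_lt_of_le (h T hT hbig G hG) ?_
  exact intervalIntegral.integral_mono_on (by linarith)
    ((gl_continuous hA hG).intervalIntegrable _ _) ((zl_cont hA hG).intervalIntegrable _ _)
    (fun u _ => gl_le_zl G u)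

/-! ### means of order `p` -/

lemma posLog_le_rpow {x a p : ℝ} (hx : 0 ≤ x) (ha : 0 ≤ a) (hp : 0 < p) :
    log⁺ x ≤ a + 1 / p * (Real.exp (-(p * a)) * x ^ p) := by
  have h0 : 0 ≤ 1 / p * (Real.exp (-(p * a)) * x ^ p) := by positivity
  rw [posLog_apply]
  refine max_le (by linarith) ?_
  rcases hx.eq_or_lt with h | h
  · rw [← h, Real.log_zero, Real.zero_rpow hp.ne']
    simpa using ha
  · have h1 : Real.log (Real.exp (-(p * a)) * x ^ p) ≤ Real.exp (-(p * a)) * x ^ p - 1 :=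
      Real.log_le_sub_one_of_pos (by positivity)
    rw [Real.log_mul (Real.exp_pos _).ne' (Real.rpow_pos_of_pos h p).ne', Real.log_exp,
      Real.log_rpow h] at h1
    have h2 : p * Real.log x ≤ p * a + Real.exp (-(p * a)) * x ^ p := by linarith
    have h3 : Real.log x = 1 / p * (p * Real.log x) := by field_simp
    rw [h3]
    calc 1 / p * (p * Real.log x) ≤ 1 / p * (p * a + Real.exp (-(p * a)) * x ^ p) := by gcongr
      _ = _ := by field_simp

/-- from `log⁺` to means of order `p` -/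
lemma mean_of_log {g : ℝ → ℝ} (hg : Continuous g) (hg0 : ∀ u, 0 ≤ g u) {p a T W : ℝ} (hp : 0 < p)
    (ha : 0 ≤ a) (hW : 0 < W) :
    ∫ u in (T - W)..(T + W), log⁺ (g u) ≤
      2 * W * a + 1 / p * (Real.exp (-(p * a)) * ∫ u in (T - W)..(T + W), g u ^ p) := by
  have hc : Continuous fun u => g u ^ p := hg.rpow_const fun u => Or.inr hp.le
  have h1 : ∫ u in (T - W)..(T + W), log⁺ (g u) ≤
      ∫ u in (T - W)..(T + W), (a + 1 / p * (Real.exp (-(p * a)) * g u ^ p)) := by
    refine intervalIntegral.integral_mono_on (by linarith)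
      ((continuous_posLog.comp hg).intervalIntegrable _ _)
      (Continuous.intervalIntegrable (by fun_prop) _ _) (fun u _ => posLog_le_rpow (hg0 u) ha hp)
  refine h1.trans (le_of_eq ?_)
  rw [intervalIntegral.integral_add (intervalIntegrable_const)
    (Continuous.intervalIntegrable (by fun_prop) _ _), intervalIntegral.integral_const,
    intervalIntegral.integral_const_mul, intervalIntegral.integral_const_mul, smul_eq_mul]
  ring

/-! ### Dirichlet polynomials -/

/-- Dirichlet polynomial -/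
noncomputable def dp (a : ℕ → ℂ) (N : ℕ) (s : ℂ) : ℂ := ∑ n ∈ Finset.Icc 1 N, a n * (n : ℂ) ^ (-s)

lemma dp_an (a : ℕ → ℂ) (N : ℕ) (s : ℂ) : AnalyticAt ℂ (dp a N) s := by
  have : dp a N = fun s => ∑ n ∈ Finset.Icc 1 N, a n * (n : ℂ) ^ (-s) := rfl
  rw [this]
  refine Finset.analyticAt_fun_sum _ fun n hn => ?_
  rw [Finset.mem_Icc] at hn
  have hn0 : (n : ℂ) ≠ 0 := by exact_mod_cast (by omega : n ≠ 0)
  refine analyticAt_const.mul ?_
  have : (fun s : ℂ => (n : ℂ) ^ (-s)) = fun s => Complex.exp (Complex.log n * (-s)) := by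
    funext s
    rw [Complex.cpow_def_of_ne_zero hn0]
  rw [this]
  fun_prop

lemma sum_sq_le (N : ℕ) : ∑ n ∈ Finset.Icc 2 N, (1 : ℝ) / (n : ℝ) ^ 2 ≤ 1 := by
  have key : ∀ N : ℕ, 1 ≤ N → ∑ n ∈ Finset.Icc 2 N, (1 : ℝ) / (n : ℝ) ^ 2 ≤ 1 - 1 / N := by
    intro N hN
    induction N, hN using Nat.le_induction with
    | base => simp
    | succ N hN ih =>
      rw [Finset.sum_Icc_succ_top (by omega)]
      have hN0 : (0 : ℝ) < N := by exact_mod_cast hN
      have h1 : (1 : ℝ) / ((N + 1 : ℕ) : ℝ) ^ 2 ≤ 1 / N - 1 / ((N + 1 : ℕ) : ℝ) := by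
        push_cast
        rw [div_sub_div _ _ hN0.ne' (by positivity), div_le_div_iff₀ (by positivity) (by positivity)]
        nlinarith
      linarith
  rcases Nat.eq_zero_or_pos N with rfl | h
  · simp
  · have := key N h
    have h2 : (0 : ℝ) ≤ 1 / N := by positivity
    linarith

lemma dp_right {a : ℕ → ℂ} {N : ℕ} {B : ℝ} (h1 : a 1 = 1) (hN : 1 ≤ N)
    (ha : ∀ n : ℕ, ‖a n‖ ≤ (n : ℝ) ^ B) {s : ℂ} (hs : B + 4 ≤ s.re) : ‖dp a N s - 1‖ ≤ 1 / 4 := by
  unfold dp
  rw [← Finset.add_sum_Ioc_eq_sum_Icc hN, h1]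
  simp only [Nat.cast_one, Complex.one_cpow, mul_one, add_sub_cancel_left]
  have e : Finset.Ioc 1 N = Finset.Icc 2 N := by ext n; simp; omega
  rw [e]
  refine (norm_sum_le _ _).trans ?_
  calc ∑ n ∈ Finset.Icc 2 N, ‖a n * (n : ℂ) ^ (-s)‖ ≤
        ∑ n ∈ Finset.Icc 2 N, 1 / 4 * ((1 : ℝ) / (n : ℝ) ^ 2) := by
        refine Finset.sum_le_sum fun n hn => ?_
        rw [Finset.mem_Icc] at hn
        have hn0 : (0 : ℝ) < n := by exact_mod_cast (by omega : 0 < n)
        have hn2 : (2 : ℝ) ≤ n := by exact_mod_cast hn.1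
        rw [norm_mul, Complex.norm_natCast_cpow_of_pos (by omega), Complex.neg_re]
        calc ‖a n‖ * (n : ℝ) ^ (-s.re) ≤ (n : ℝ) ^ B * (n : ℝ) ^ (-(B + 4)) := by
              gcongr
              · exact ha n
              · linarith
          _ = 1 / (n : ℝ) ^ 4 := by
              rw [← Real.rpow_add hn0, show B + -(B + 4) = -((4 : ℕ) : ℝ) by push_cast; ring,
                Real.rpow_neg hn0.le, Real.rpow_natCast, one_div]
          _ ≤ 1 / 4 * (1 / (n : ℝ) ^ 2) := by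
              rw [div_mul_div_comm, one_mul]
              apply one_div_le_one_div_of_le (by positivity)
              have h4 : (4 : ℝ) ≤ (n : ℝ) ^ 2 := by nlinarith
              calc (4 : ℝ) * (n : ℝ) ^ 2 ≤ (n : ℝ) ^ 2 * (n : ℝ) ^ 2 := by gcongr
                _ = (n : ℝ) ^ 4 := by ring
    _ = 1 / 4 * ∑ n ∈ Finset.Icc 2 N, ((1 : ℝ) / (n : ℝ) ^ 2) := by rw [Finset.mul_sum]
    _ ≤ 1 / 4 * 1 := by
        gcongr
        exact sum_sq_le N
    _ = 1 / 4 := by norm_num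

lemma dp_growth {a : ℕ → ℂ} {N : ℕ} {B T : ℝ} (hB : 0 ≤ B) (hT : 1 ≤ T)
    (hN : (N : ℝ) ≤ T ^ B) (ha : ∀ n : ℕ, ‖a n‖ ≤ (n : ℝ) ^ B) {s : ℂ} (hs : 1 / 2 ≤ s.re) :
    ‖dp a N s‖ ≤ T ^ (B * (B + 1)) := by
  unfold dp
  refine (norm_sum_le _ _).trans ?_
  calc ∑ n ∈ Finset.Icc 1 N, ‖a n * (n : ℂ) ^ (-s)‖ ≤ ∑ n ∈ Finset.Icc 1 N, (N : ℝ) ^ B := by
        refine Finset.sum_le_sum fun n hn => ?_
        rw [Finset.mem_Icc] at hn
        have hn1 : (1 : ℝ) ≤ n := by exact_mod_cast hn.1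
        have hnN : (n : ℝ) ≤ N := by exact_mod_cast hn.2
        rw [norm_mul, Complex.norm_natCast_cpow_of_pos (by omega), Complex.neg_re]
        have h1 : (n : ℝ) ^ (-s.re) ≤ 1 := Real.rpow_le_one_of_one_le_of_nonpos hn1 (by linarith)
        calc ‖a n‖ * (n : ℝ) ^ (-s.re) ≤ (n : ℝ) ^ B * 1 := by
              gcongr
              exact ha n
          _ ≤ (N : ℝ) ^ B := by
              rw [mul_one]
              exact Real.rpow_le_rpow (by linarith) hnN hB
    _ = (N : ℝ) * (N : ℝ) ^ B := by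
        rw [Finset.sum_const, Nat.card_Icc, nsmul_eq_mul]
        simp
    _ ≤ T ^ B * (T ^ B) ^ B := by gcongr
    _ = T ^ (B * (B + 1)) := by
        rw [← Real.rpow_mul (by linarith), ← Real.rpow_add (by linarith)]
        congr 1
        ring

lemma dp_cls {B : ℝ} (hB : 0 ≤ B) : ∃ A : ℝ, 2 ≤ A ∧ ∀ η W : ℝ, 0 < η → ∃ T₀ : ℝ, 3 ≤ T₀ ∧
    ∀ T : ℝ, T₀ ≤ T → ∀ (a : ℕ → ℂ) (N : ℕ), a 1 = 1 → 1 ≤ N → (∀ n : ℕ, ‖a n‖ ≤ (n : ℝ) ^ B) →
      (N : ℝ) ≤ T ^ B → Cls A η W T (dp a N) := by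
  refine ⟨B * (B + 1) + B + 4, by nlinarith, ?_⟩
  intro η W hη
  obtain ⟨T₀, hT₀, hab⟩ := absorb 2 hη
  refine ⟨T₀, hT₀, ?_⟩
  intro T hT a N h1 hN ha hNT
  have hT3 : 3 ≤ T := hT₀.trans hT
  have hTpos : 0 < T := by linarith
  have hL0 : 0 ≤ Real.log T := Real.log_nonneg (by linarith)
  have h2 := hab T hT
  have hBB : 0 ≤ B * (B + 1) := by positivity
  refine ⟨fun s _ _ => dp_an a N s, ?_, ?_, ?_⟩
  · intro s hs1 _
    refine (dp_growth hB (by linarith) hNT ha hs1).trans ?_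
    rw [← exp_mul_log hTpos]
    refine Real.exp_le_exp.2 ?_
    have h3 : 0 ≤ (B * (B + 1) + B + 4) * |s.im - T| := by positivity
    have h4 : B * (B + 1) * Real.log T ≤ (B * (B + 1) + B + 4) * Real.log T := by
      gcongr; linarith
    linarith
  · intro s hs1 _ _
    have h3 := dp_right h1 hN ha (s := s) (by linarith)
    have h4 : ‖dp a N s‖ ≤ 1 / 4 + 1 := by
      calc ‖dp a N s‖ = ‖(dp a N s - 1) + 1‖ := by rw [sub_add_cancel]
        _ ≤ ‖dp a N s - 1‖ + ‖(1 : ℂ)‖ := norm_add_le _ _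
        _ ≤ _ := by rw [norm_one]; linarith
    linarith
  · intro s hs1 _
    have h3 := dp_right h1 hN ha (s := s) (by linarith)
    have h4 : 3 / 4 ≤ ‖dp a N s‖ := by
      have := norm_sub_norm_le (1 : ℂ) (1 - dp a N s)
      rw [sub_sub_cancel, norm_one, norm_sub_rev] at this
      linarith
    rw [Real.exp_neg]
    have h5 : (Real.exp (η * Real.log T))⁻¹ ≤ 2⁻¹ := inv_anti₀ (by norm_num) h2
    linarith

/-! ### products of values of zeta -/

/-- the argument of the factor of index `j` -/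
noncomputable def arg (lam y T : ℝ) (s : ℂ) : ℂ :=
  1 / 2 + (lam : ℂ) * (s - 1 / 2 - T * Complex.I) + y * Complex.I

lemma arg_re (lam y T : ℝ) (s : ℂ) : (arg lam y T s).re = 1 / 2 + lam * (s.re - 1 / 2) := by
  unfold arg; simp

lemma arg_im (lam y T : ℝ) (s : ℂ) : (arg lam y T s).im = lam * (s.im - T) + y := by
  unfold arg; simp

/-- the product of the values of `GG` -/
noncomputable def pr {m : ℕ} (lam y : Fin m → ℝ) (T : ℝ) (s : ℂ) : ℂ :=
  ∏ j, GG (arg (lam j) (y j) T s)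

lemma pr_cls {m : ℕ} {lam : Fin m → ℝ} (hlam : ∀ j, 0 < lam j) (B : ℝ) (hB : 0 ≤ B) :
    ∃ A : ℝ, 2 ≤ A ∧ ∀ η W : ℝ, 0 < η → ∃ T₀ : ℝ, 3 ≤ T₀ ∧
      ∀ T : ℝ, T₀ ≤ T → ∀ y : Fin m → ℝ, (∀ j, |y j| ≤ T ^ B) → Cls A η W T (pr lam y T) := by
  -- bounds of the numbers `lam j`
  obtain ⟨Λ, hΛ1, hΛ⟩ : ∃ Λ : ℝ, 1 ≤ Λ ∧ ∀ j, lam j ≤ Λ ∧ 1 / Λ ≤ lam j := by
    refine ⟨1 + ∑ j, (lam j + 1 / lam j), ?_, ?_⟩
    · have : 0 ≤ ∑ j, (lam j + 1 / lam j) := Finset.sum_nonneg fun j _ => by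
        have := hlam j; positivity
      linarith
    · intro j
      have h1 : lam j + 1 / lam j ≤ ∑ j, (lam j + 1 / lam j) :=
        Finset.single_le_sum (f := fun j => lam j + 1 / lam j) (fun i _ => by
          have := hlam i; positivity) (Finset.mem_univ j)
      have h2 := hlam j
      have h3 : 0 < 1 / lam j := by positivity
      refine ⟨by linarith, ?_⟩
      rw [div_le_iff₀ (by linarith)]
      have h4 : lam j * (1 / lam j) = 1 := by field_simp
      nlinarith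
  have hΛ0 : 0 < Λ := by linarith
  obtain ⟨C, hC, hG⟩ := GG_growth
  obtain ⟨Az, hAz1, hAz⟩ := DH31.zeta_bounds (a := 2) (by norm_num)
  set A : ℝ := (m : ℝ) * (4 * B + 1) + 4 * m * Λ + 2 * Λ + 2 with hA
  have hm0 : (0 : ℝ) ≤ m := Nat.cast_nonneg m
  have hA2 : 2 ≤ A := by
    have h1 : 0 ≤ (m : ℝ) * (4 * B + 1) := by positivity
    have h2 : 0 ≤ 4 * (m : ℝ) * Λ := by positivity
    linarith
  refine ⟨A, hA2, ?_⟩
  intro η W hη
  have hm1 : 0 < (m : ℝ) + 1 := by positivity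
  obtain ⟨T₁, hT₁, hab1⟩ := absorb (C * (3 + 2 * Λ * A + Λ) ^ 4) one_pos
  obtain ⟨T₂, hT₂, hab2⟩ := absorb (5 * Az) (show 0 < η / (m + 1) by positivity)
  refine ⟨T₁ + T₂, by linarith, ?_⟩
  intro T hT y hy
  have hT3 : 3 ≤ T := by linarith
  have hTpos : 0 < T := by linarith
  have hL0 : 0 ≤ Real.log T := Real.log_nonneg (by linarith)
  have hre : ∀ (j : Fin m) (s : ℂ), 1 / 2 ≤ s.re → 1 / 2 ≤ (arg (lam j) (y j) T s).re := by
    intro j s hs
    rw [arg_re]
    have := hlam j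
    nlinarith
  have hre2 : ∀ (j : Fin m) (s : ℂ), A ≤ s.re → 2 ≤ (arg (lam j) (y j) T s).re := by
    intro j s hs
    rw [arg_re]
    have h1 := (hΛ j).2
    have h2 : 2 * Λ ≤ s.re - 1 / 2 := by
      have h1 : 0 ≤ (m : ℝ) * (4 * B + 1) := by positivity
      have h2 : 0 ≤ 4 * (m : ℝ) * Λ := by positivity
      linarith
    have h3 : 1 / Λ * (2 * Λ) ≤ lam j * (s.re - 1 / 2) := by
      have := hlam j
      gcongr
    have h4 : 1 / Λ * (2 * Λ) = 2 := by field_simp
    linarith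
  have harg : ∀ (j : Fin m) (s : ℂ), AnalyticAt ℂ (arg (lam j) (y j) T) s := by
    intro j s
    unfold arg
    fun_prop
  have hfac : ∀ (j : Fin m) (s : ℂ), A ≤ s.re →
      ‖GG (arg (lam j) (y j) T s)‖ ≤ Real.exp (η / (m + 1) * Real.log T) ∧
      Real.exp (-(η / (m + 1) * Real.log T)) ≤ ‖GG (arg (lam j) (y j) T s)‖ := by
    intro j s hs
    set w := arg (lam j) (y j) T s with hw
    have hw2 : 2 ≤ w.re := hre2 j s hs
    have h5 := hab2 T (by linarith)
    have h4 := hAz w hw2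
    constructor
    · rw [GG_of_ne (ne_one_of_re' (by linarith)), norm_mul]
      have h3 := ratio_le (s := w) (by linarith)
      calc ‖(w - 1) / (w + 3)‖ * ‖riemannZeta w‖ ≤ 1 * Az := by
            have := h4.1
            gcongr
        _ ≤ 5 * Az := by linarith
        _ ≤ _ := h5
    · rw [GG_of_ne (ne_one_of_re' (by linarith)), norm_mul]
      have h3 := ratio_ge (s := w) (by linarith) (η := 1) one_pos (by
        have := Complex.abs_re_le_norm (w - 1)
        rw [Complex.sub_re, Complex.one_re, abs_of_pos (by linarith)] at this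
        linarith)
      calc Real.exp (-(η / (m + 1) * Real.log T)) ≤ 1 / (5 * Az) := by
            rw [Real.exp_neg, ← one_div]
            exact one_div_le_one_div_of_le (by positivity) h5
        _ = (1 + 4 / 1)⁻¹ * (1 / Az) := by norm_num; ring
        _ ≤ _ := by
            have := h4.2
            gcongr
  have hmη : (m : ℝ) * (η / (m + 1)) ≤ η := by
    rw [mul_div_assoc', div_le_iff₀ hm1]
    nlinarith
  refine ⟨?_, ?_, ?_, ?_⟩
  · intro s hs1 _
    have : pr lam y T = fun s => ∏ j, GG (arg (lam j) (y j) T s) := rfl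
    rw [this]
    refine Finset.analyticAt_fun_prod _ fun j _ => ?_
    exact AnalyticAt.comp (g := GG) (f := arg (lam j) (y j) T)
      (GG_analyticAt (by linarith [hre j s hs1])) (harg j s)
  · intro s hs1 hs2
    unfold pr
    rw [norm_prod]
    have hj : ∀ j ∈ (Finset.univ : Finset (Fin m)), ‖GG (arg (lam j) (y j) T s)‖ ≤
        Real.exp ((4 * B + 1) * Real.log T + 4 * Λ * |s.im - T|) := by
      intro j _
      set w := arg (lam j) (y j) T s with hw
      have h1 := hG w (by linarith [hre j s hs1])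
      refine h1.trans ?_
      set u := |s.im - T| with hu
      have hu0 : 0 ≤ u := abs_nonneg _
      have hl1 := (hΛ j).1
      have hl0 := hlam j
      have hTB : 1 ≤ T ^ B := Real.one_le_rpow (by linarith) hB
      have h2 : ‖w‖ + 1 ≤ (3 + 2 * Λ * A + Λ) * (T ^ B * Real.exp (Λ * u)) := by
        have h6 := Complex.norm_le_abs_re_add_abs_im w
        have h7 : |w.re| ≤ 1 / 2 + Λ * (2 * A) := by
          rw [hw, arg_re, abs_of_nonneg (by nlinarith)]
          have : lam j * (s.re - 1 / 2) ≤ Λ * (2 * A) := by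
            apply mul_le_mul hl1 (by linarith) (by linarith) hΛ0.le
          linarith
        have h8 : |w.im| ≤ Λ * u + T ^ B := by
          rw [hw, arg_im]
          refine (abs_add_le _ _).trans (add_le_add ?_ (hy j))
          rw [abs_mul, abs_of_pos hl0]
          gcongr
        have h9 : 1 + Λ * u ≤ Real.exp (Λ * u) := by linarith [Real.add_one_le_exp (Λ * u)]
        set E := Real.exp (Λ * u) with hE
        have hE1 : 1 ≤ E := by
          have : 0 ≤ Λ * u := by positivity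
          linarith
        have h10 : 1 ≤ T ^ B * E := by nlinarith
        have h11 : Λ * u + T ^ B ≤ 2 * (T ^ B * E) := by nlinarith
        have h12 : 0 ≤ 2 * Λ * A := by positivity
        nlinarith
      have hTBe : T ^ B = Real.exp (B * Real.log T) := (exp_mul_log hTpos).symm
      calc C * (‖w‖ + 1) ^ 4 ≤ C * ((3 + 2 * Λ * A + Λ) * (T ^ B * Real.exp (Λ * u))) ^ 4 := by
            gcongr
        _ = (C * (3 + 2 * Λ * A + Λ) ^ 4) * (T ^ B * Real.exp (Λ * u)) ^ 4 := by ring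
        _ ≤ Real.exp (1 * Real.log T) * (T ^ B * Real.exp (Λ * u)) ^ 4 := by
            gcongr
            exact hab1 T (by linarith)
        _ = _ := by
            rw [hTBe, ← Real.exp_add, ← Real.exp_nat_mul, ← Real.exp_add]
            congr 1
            push_cast
            ring
    refine (Finset.prod_le_prod (fun j _ => norm_nonneg _) hj).trans ?_
    rw [Finset.prod_const, Finset.card_univ, Fintype.card_fin, ← Real.exp_nat_mul]
    refine Real.exp_le_exp.2 ?_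
    have hu0 : 0 ≤ |s.im - T| := abs_nonneg _
    have h1 : (m : ℝ) * (4 * B + 1) ≤ A := by
      have h2 : 0 ≤ 4 * (m : ℝ) * Λ := by positivity
      linarith
    have h2 : 4 * (m : ℝ) * Λ ≤ A := by
      have h1 : 0 ≤ (m : ℝ) * (4 * B + 1) := by positivity
      linarith
    calc (m : ℝ) * ((4 * B + 1) * Real.log T + 4 * Λ * |s.im - T|)
        = (m : ℝ) * (4 * B + 1) * Real.log T + 4 * m * Λ * |s.im - T| := by ring
      _ ≤ _ := by gcongr
  · intro s hs1 _ _
    unfold pr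
    rw [norm_prod]
    refine (Finset.prod_le_prod (fun j _ => norm_nonneg _) fun j _ => (hfac j s hs1).1).trans ?_
    rw [Finset.prod_const, Finset.card_univ, Fintype.card_fin, ← Real.exp_nat_mul]
    refine Real.exp_le_exp.2 ?_
    rw [← mul_assoc]
    gcongr
  · intro s hs1 _
    unfold pr
    rw [norm_prod]
    refine le_trans ?_ (Finset.prod_le_prod (fun j _ => (Real.exp_pos _).le)
      fun j _ => (hfac j s hs1.ge).2)
    rw [Finset.prod_const, Finset.card_univ, Fintype.card_fin, ← Real.exp_nat_mul]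
    refine Real.exp_le_exp.2 ?_
    have : (m : ℝ) * (η / (m + 1)) * Real.log T ≤ η * Real.log T := by gcongr
    linarith

/-- the values on the line -/
lemma pr_line {m : ℕ} (lam y : Fin m → ℝ) (T u : ℝ) :
    ‖pr lam y T (1 / 2 + (T + u : ℝ) * Complex.I)‖ ≤
      ∏ j, ‖riemannZeta (1 / 2 + (y j + lam j * u : ℝ) * Complex.I)‖ := by
  unfold pr
  rw [norm_prod]
  refine Finset.prod_le_prod (fun j _ => norm_nonneg _) fun j _ => ?_
  have e : arg (lam j) (y j) T (1 / 2 + (T + u : ℝ) * Complex.I) =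
      1 / 2 + (y j + lam j * u : ℝ) * Complex.I := by
    unfold arg
    push_cast
    ring
  rw [e]
  exact GG_le_zeta _

/-- the product of the moduli of the values of zeta -/
noncomputable def Zp {m : ℕ} (lam y : Fin m → ℝ) (u : ℝ) : ℝ :=
  ∏ j, ‖riemannZeta (1 / 2 + (y j + lam j * u : ℝ) * Complex.I)‖

lemma Zp_cont {m : ℕ} (lam y : Fin m → ℝ) : Continuous (Zp lam y) := by
  unfold Zp
  refine continuous_finsetProd _ fun j _ => ?_
  exact (zeta_line_cont.comp (by fun_prop : Continuous fun u : ℝ => y j + lam j * u)).norm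

theorem no_cancel_prod {κ : ℝ} (hκ : 0 < κ) {m : ℕ} {lam : Fin m → ℝ} (hlam : ∀ j, 0 < lam j) (B : ℝ)
    (hB : 0 ≤ B) : ∃ η W T₀ : ℝ, 0 < η ∧ 0 < W ∧ 3 ≤ T₀ ∧ ∀ T : ℝ, T₀ ≤ T →
      T ^ κ ≤ ‖riemannZeta (1 / 2 + T * Complex.I)‖ → ∀ y : Fin m → ℝ, (∀ j, |y j| ≤ T ^ B) →
        η * Real.log T <
          ∫ u in (-W)..W, log⁺ (‖riemannZeta (1 / 2 + (T + u : ℝ) * Complex.I)‖ * Zp lam y u) := by
  obtain ⟨A, hA, hcl⟩ := pr_cls hlam B hB
  obtain ⟨η, W, T₁, h1, h2, h3, h⟩ := no_cancel_zl hκ hA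
  obtain ⟨T₂, hT₂, hcl'⟩ := hcl η W h1
  refine ⟨η, W, max T₁ T₂, h1, h2, h3.trans (le_max_left _ _), ?_⟩
  intro T hT hbig y hy
  have hG := hcl' T ((le_max_right _ _).trans hT) y hy
  refine lt_of_lt_of_le (h T ((le_max_left _ _).trans hT) hbig _ hG) ?_
  have e := intervalIntegral.integral_comp_add_left (a := -W) (b := W) (zl (pr lam y T)) T
  rw [show T + -W = T - W by ring] at e
  rw [← e]
  refine intervalIntegral.integral_mono_on (by linarith) ?_ ?_ fun u _ => ?_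
  · exact ((zl_cont hA hG).comp (by fun_prop : Continuous fun u : ℝ => T + u)).intervalIntegrable _ _
  · refine Continuous.intervalIntegrable ?_ _ _
    refine continuous_posLog.comp (Continuous.mul ?_ (Zp_cont lam y))
    exact (zeta_line_cont.comp (by fun_prop : Continuous fun u : ℝ => T + u)).norm
  · unfold zl
    refine posLog_le_posLog (norm_nonneg _) ?_
    rw [norm_mul]
    exact mul_le_mul_of_nonneg_left (pr_line lam y T u) (norm_nonneg _)

end Pool.Agent.K7.H52.NM
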