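import Pool.Agent.K7.H52.NM.Cor

/-!
Criteria: products of dilated and shifted values, mollified means, multiples.
-/

set_option autoImplicit false

open MeasureTheory Filter Topology Set Real

namespace Pool.Agent.K7.H52.NM

open Pool.Agent.Y757.LS Pool.Agent.K7.H52.SP

/-- bounds at large heights are enough -/
lemma LH_of_large (H : ∀ κ : ℝ, 0 < κ → ∃ T₀ : ℝ, ∀ T : ℝ, T₀ ≤ T →
    ‖riemannZeta (1 / 2 + T * Complex.I)‖ ≤ T ^ κ) : LH := by
  intro κ hκ0
  obtain ⟨T₀, hT₀⟩ := H κ hκ0
  obtain ⟨C, hC⟩ := small_of_large (σ := 1 / 2) hκ0 (T₀ := T₀) (fun T hT => by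
    have := hT₀ T hT
    rwa [show (((1 / 2 : ℝ) : ℂ)) = 1 / 2 by push_cast; ring])
  have hcont : ContinuousOn (fun t : ℝ => riemannZeta (1 / 2 + t * Complex.I)) (Icc 0 1) :=
    zeta_line_cont.continuousOn
  obtain ⟨M, hM⟩ := isCompact_Icc.exists_bound_of_continuousOn hcont
  refine ⟨max |C| M, fun t => ?_⟩
  rw [zeta_abs]
  set u := |t| with hu
  have hu0 : 0 ≤ u := abs_nonneg t
  have h1 : 1 ≤ (1 + u) ^ κ := Real.one_le_rpow (by linarith) hκ0.le
  have hmax : 0 ≤ max |C| M := (abs_nonneg C).trans (le_max_left _ _)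
  rcases le_total u 1 with h | h
  · calc ‖riemannZeta (1 / 2 + (u : ℝ) * Complex.I)‖ ≤ M := hM u ⟨hu0, h⟩
      _ ≤ max |C| M * 1 := by rw [mul_one]; exact le_max_right _ _
      _ ≤ _ := by gcongr
  · have h2 := hC u h
    rw [show (((1 / 2 : ℝ) : ℂ)) = 1 / 2 by push_cast; ring] at h2
    calc ‖riemannZeta (1 / 2 + (u : ℝ) * Complex.I)‖ ≤ C * u ^ κ := h2
      _ ≤ |C| * (1 + u) ^ κ := by
          have h3 : u ^ κ ≤ (1 + u) ^ κ := Real.rpow_le_rpow hu0 (by linarith) hκ0.le
          have h4 := le_abs_self C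
          have h5 : 0 ≤ u ^ κ := Real.rpow_nonneg hu0 _
          have h6 := abs_nonneg C
          calc C * u ^ κ ≤ |C| * u ^ κ := by gcongr
            _ ≤ _ := by gcongr
      _ ≤ _ := by
          gcongr
          exact le_max_left _ _

lemma large_of_not_LH (h : ¬ LH) : ∃ κ : ℝ, 0 < κ ∧ ∀ T₀ : ℝ, ∃ T : ℝ, T₀ ≤ T ∧
    T ^ κ ≤ ‖riemannZeta (1 / 2 + T * Complex.I)‖ := by
  by_contra hcon
  push Not at hcon
  exact h (LH_of_large fun κ hκ => by
    obtain ⟨T₀, hT₀⟩ := hcon κ hκ
    exact ⟨T₀, fun T hT => (hT₀ T hT).le⟩)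

/-- a bound for the factor makes the integral small -/
lemma int_le_of_bound {f : ℝ → ℝ} {a b c : ℝ} (hab : a ≤ b) (hf : Continuous f)
    (h : ∀ u ∈ Icc a b, f u ≤ c) : ∫ u in a..b, f u ≤ (b - a) * c := by
  have h1 : ∫ u in a..b, f u ≤ ∫ u in a..b, c :=
    intervalIntegral.integral_mono_on hab (hf.intervalIntegrable _ _) intervalIntegrable_const h
  rwa [intervalIntegral.integral_const, smul_eq_mul] at h1

/-- the product of the values of zeta at `lam j * t + h j` -/
noncomputable def PZ {m : ℕ} (lam h : Fin m → ℝ) (t : ℝ) : ℝ :=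
  ∏ j, ‖riemannZeta (1 / 2 + (lam j * t + h j : ℝ) * Complex.I)‖

theorem prod_crit {m : ℕ} {lam h : Fin (m + 1) → ℝ} (hlam : ∀ j, 0 < lam j) :
    LH ↔ ∀ ε : ℝ, 0 < ε → ∃ C : ℝ, ∀ t : ℝ, 1 ≤ t → PZ lam h t ≤ C * t ^ ε := by
  have hsum0 : 0 ≤ ∑ j, (lam j + |h j|) := Finset.sum_nonneg fun j _ => by
    have := hlam j; positivity
  have hsum : ∀ j, lam j + |h j| ≤ ∑ j, (lam j + |h j|) := fun j =>
    Finset.single_le_sum (f := fun j => lam j + |h j|) (fun i _ => by
      have := hlam i; positivity) (Finset.mem_univ j)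
  set K : ℝ := 1 + ∑ j, (lam j + |h j|) with hK
  have hK1 : 1 ≤ K := by linarith
  have hK0 : 0 < K := by linarith
  have habs : ∀ (j : Fin (m + 1)) (t : ℝ), 1 ≤ t → 1 + |lam j * t + h j| ≤ K * t := by
    intro j t ht
    have h1 := hsum j
    have h2 : |lam j * t + h j| ≤ lam j * t + |h j| := by
      refine (abs_add_le _ _).trans ?_
      rw [abs_of_nonneg (mul_nonneg (hlam j).le (by linarith))]
    have h3 := hlam j
    have h4 := abs_nonneg (h j)
    have h5 : K * t = t + (∑ j, (lam j + |h j|)) * t := by rw [hK]; ring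
    have h6 : (lam j + |h j|) * t ≤ (∑ j, (lam j + |h j|)) * t := by gcongr
    nlinarith
  constructor
  · intro H ε hε
    obtain ⟨C, hC⟩ := H (ε / (m + 1)) (by positivity)
    have hC0 : 0 ≤ C := by
      have := (norm_nonneg _).trans (hC 0)
      simpa using this
    refine ⟨(C * K ^ (ε / (m + 1))) ^ (m + 1), fun t ht => ?_⟩
    have ht0 : 0 < t := by linarith
    unfold PZ
    have h1 : ∀ j ∈ (Finset.univ : Finset (Fin (m + 1))),
        ‖riemannZeta (1 / 2 + (lam j * t + h j : ℝ) * Complex.I)‖ ≤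
          C * K ^ (ε / (m + 1)) * t ^ (ε / (m + 1)) := by
      intro j _
      refine (hC _).trans ?_
      rw [mul_assoc, ← Real.mul_rpow hK0.le ht0.le]
      gcongr
      exact habs j t ht
    refine (Finset.prod_le_prod (fun j _ => norm_nonneg _) h1).trans (le_of_eq ?_)
    rw [Finset.prod_const, Finset.card_univ, Fintype.card_fin, mul_pow]
    congr 1
    rw [← Real.rpow_natCast, ← Real.rpow_mul ht0.le]
    congr 1
    push_cast
    field_simp
  · intro H
    by_contra hcon
    obtain ⟨κ, hκ, hbig⟩ := large_of_not_LH hcon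
    have h0 := hlam 0
    obtain ⟨η, W, T₀, hη, hW, hT₀, hlaw⟩ := no_cancel_prod hκ (m := m)
      (lam := fun j => lam j.succ / lam 0) (fun j => div_pos (hlam _) h0) 2 (by norm_num)
    obtain ⟨C, hC⟩ := H (η / (8 * W)) (by positivity)
    obtain ⟨T₁, hT₁, hab⟩ := absorb (|C|) (show 0 < η / (8 * W) by positivity)
    -- large heights
    set Q : ℝ := (1 + K + W) / lam 0 with hQ
    have hQ0 : 0 < Q := by positivity
    obtain ⟨T, hT, hTbig⟩ := hbig (T₀ + T₁ + K * (Q + 1) + Q + K + W + lam 0)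
    have hKQ : 0 ≤ K * (Q + 1) := by positivity
    have hT3 : 3 ≤ T := by linarith
    have hTpos : 0 < T := by linarith
    have hL0 : 0 < Real.log T := Real.log_pos (by linarith)
    have hh0 : |h 0| ≤ K := by
      have := hsum 0
      linarith
    have hTT : T ^ (2 : ℝ) = T * T := by
      rw [show (2 : ℝ) = ((2 : ℕ) : ℝ) by norm_num, Real.rpow_natCast]; ring
    set t₀ : ℝ := (T - h 0) / lam 0 with ht₀
    have hu : ∀ u : ℝ, |u| ≤ W → 1 ≤ t₀ + u / lam 0 ∧ |t₀ + u / lam 0| ≤ Q * T := by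
      intro u hu
      have e : t₀ + u / lam 0 = (T - h 0 + u) / lam 0 := by rw [ht₀]; ring
      have h1 := abs_le.1 hh0
      have h2 := abs_le.1 hu
      rw [e]
      have h3 : lam 0 ≤ T - h 0 + u := by linarith
      refine ⟨by rw [le_div_iff₀ h0]; linarith, ?_⟩
      rw [abs_of_nonneg (by apply div_nonneg <;> linarith), hQ, div_mul_eq_mul_div]
      apply div_le_div_of_nonneg_right _ h0.le
      nlinarith
    have hy : ∀ j : Fin m, |lam j.succ * t₀ + h j.succ| ≤ T ^ (2 : ℝ) := by
      intro j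
      have h1 := hsum j.succ
      have h5 := (hu 0 (by simpa using hW.le)).2
      rw [zero_div, add_zero] at h5
      have h6 := hlam j.succ
      have h7 := abs_nonneg (h j.succ)
      have h2 : |lam j.succ * t₀ + h j.succ| ≤ K * (Q * T) + K := by
        refine (abs_add_le _ _).trans ?_
        rw [abs_mul, abs_of_pos (hlam _)]
        have : lam j.succ ≤ K := by linarith
        have : |h j.succ| ≤ K := by linarith
        gcongr
      rw [hTT]
      calc |lam j.succ * t₀ + h j.succ| ≤ K * (Q * T) + K := h2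
        _ ≤ K * (Q + 1) * T := by nlinarith
        _ ≤ T * T := by
            gcongr
            linarith
    have h1 := hlaw T (by linarith) hTbig (fun j => lam j.succ * t₀ + h j.succ) hy
    have h2 : ∀ u : ℝ, ‖riemannZeta (1 / 2 + (T + u : ℝ) * Complex.I)‖ *
        Zp (fun j => lam j.succ / lam 0) (fun j => lam j.succ * t₀ + h j.succ) u =
        PZ lam h (t₀ + u / lam 0) := by
      intro u
      unfold PZ Zp
      rw [Fin.prod_univ_succ]
      congr 1
      · congr 3
        rw [ht₀]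
        congr 1
        field_simp
        ring
      · refine Finset.prod_congr rfl fun j _ => ?_
        congr 3
        congr 1
        ring
    have h3 : ∫ u in (-W)..W, log⁺ (‖riemannZeta (1 / 2 + (T + u : ℝ) * Complex.I)‖ *
        Zp (fun j => lam j.succ / lam 0) (fun j => lam j.succ * t₀ + h j.succ) u) ≤
        (W - -W) * (3 * (η / (8 * W)) * Real.log T) := by
      refine int_le_of_bound (by linarith) ?_ ?_
      · refine continuous_posLog.comp (Continuous.mul ?_ (Zp_cont _ _))
        exact (zeta_line_cont.comp (by fun_prop : Continuous fun u : ℝ => T + u)).norm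
      · intro u hu1
        rw [h2 u]
        obtain ⟨u1, u2⟩ := hu u (abs_le.2 ⟨hu1.1, hu1.2⟩)
        have hP0 : 0 ≤ PZ lam h (t₀ + u / lam 0) := Finset.prod_nonneg fun j _ => norm_nonneg _
        refine posLog_le_of hP0 (by positivity) ?_
        set t := t₀ + u / lam 0 with ht
        rw [abs_of_pos (by linarith)] at u2
        have h5 : t ≤ T ^ (2 : ℝ) := by
          rw [hTT]
          refine u2.trans ?_
          gcongr
          linarith
        calc PZ lam h t ≤ C * t ^ (η / (8 * W)) := hC t u1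
          _ ≤ |C| * (T ^ (2 : ℝ)) ^ (η / (8 * W)) := by
              have h6 : 0 ≤ t ^ (η / (8 * W)) := Real.rpow_nonneg (by linarith) _
              calc C * t ^ (η / (8 * W)) ≤ |C| * t ^ (η / (8 * W)) := by
                    gcongr; exact le_abs_self C
                _ ≤ _ := by gcongr
          _ ≤ Real.exp (η / (8 * W) * Real.log T) * (T ^ (2 : ℝ)) ^ (η / (8 * W)) := by
              gcongr
              exact hab T (by linarith)
          _ = Real.exp (3 * (η / (8 * W)) * Real.log T) := by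
              rw [← Real.rpow_mul hTpos.le, ← exp_mul_log hTpos, ← Real.exp_add]
              congr 1
              ring
    have h4 : (W - -W) * (3 * (η / (8 * W)) * Real.log T) = 3 / 4 * η * Real.log T := by
      field_simp
      ring
    rw [h4] at h3
    have h5 : 0 < η * Real.log T := by positivity
    linarith

/-! ### mollified means -/

lemma dp_congr {a b : ℕ → ℂ} {N : ℕ} (h : ∀ n : ℕ, 1 ≤ n → a n = b n) (s : ℂ) : dp a N s = dp b N s := by
  unfold dp
  refine Finset.sum_congr rfl fun n hn => ?_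
  rw [Finset.mem_Icc] at hn
  rw [h n hn.1]

lemma dp_cont (a : ℕ → ℂ) (N : ℕ) : Continuous fun u : ℝ => dp a N (1 / 2 + u * Complex.I) := by
  rw [continuous_iff_continuousAt]
  intro u
  exact ContinuousAt.comp (f := fun u : ℝ => (1 / 2 : ℂ) + u * Complex.I)
    (dp_an a N _).continuousAt (by fun_prop)

theorem law_moll {κ : ℝ} (hκ : 0 < κ) {B : ℝ} (hB : 0 ≤ B) :
    ∃ η W T₀ : ℝ, 0 < η ∧ 0 < W ∧ 3 ≤ T₀ ∧ ∀ T : ℝ, T₀ ≤ T →
      T ^ κ ≤ ‖riemannZeta (1 / 2 + T * Complex.I)‖ → ∀ (a : ℕ → ℂ) (N : ℕ), a 1 = 1 → 1 ≤ N →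
        (∀ n : ℕ, 1 ≤ n → ‖a n‖ ≤ (n : ℝ) ^ B) → (N : ℝ) ≤ T ^ B →
        η * Real.log T < ∫ u in (T - W)..(T + W), log⁺ (‖riemannZeta (1 / 2 + u * Complex.I)‖ *
          ‖dp a N (1 / 2 + u * Complex.I)‖) := by
  obtain ⟨A, hA, hcl⟩ := dp_cls hB
  obtain ⟨η, W, T₁, h1, h2, h3, h⟩ := no_cancel_zl hκ hA
  obtain ⟨T₂, hT₂, hcl'⟩ := hcl η W h1
  refine ⟨η, W, max T₁ T₂, h1, h2, h3.trans (le_max_left _ _), ?_⟩
  intro T hT hbig a N ha1 hN ha hNT
  set b : ℕ → ℂ := fun n => if n = 0 then 0 else a n with hb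
  have hab : ∀ n : ℕ, 1 ≤ n → a n = b n := by
    intro n hn
    rw [hb]
    simp only
    rw [if_neg (by omega)]
  have hG := hcl' T ((le_max_right _ _).trans hT) b N (by rw [← hab 1 le_rfl, ha1]) hN (by
    intro n
    rcases Nat.eq_zero_or_pos n with rfl | hn
    · rw [hb]
      simp only [if_true, norm_zero]
      positivity
    · rw [← hab n hn]
      exact ha n hn) hNT
  have h5 := h T ((le_max_left _ _).trans hT) hbig _ hG
  have e : zl (dp b N) = fun u : ℝ => log⁺ (‖riemannZeta (1 / 2 + u * Complex.I)‖ *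
      ‖dp a N (1 / 2 + u * Complex.I)‖) := by
    funext u
    unfold zl
    rw [norm_mul, dp_congr hab]
  rwa [e] at h5

theorem moll_crit {p : ℝ} (hp : 0 < p) : LH ↔ ∃ B : ℝ, 0 ≤ B ∧ ∀ ε W : ℝ, 0 < ε → 0 < W →
    ∃ T₀ : ℝ, ∀ T : ℝ, T₀ ≤ T → ∃ (a : ℕ → ℂ) (N : ℕ), a 1 = 1 ∧ 1 ≤ N ∧
      (∀ n : ℕ, 1 ≤ n → ‖a n‖ ≤ (n : ℝ) ^ B) ∧ (N : ℝ) ≤ T ^ B ∧
      ∫ u in (T - W)..(T + W), (‖riemannZeta (1 / 2 + u * Complex.I)‖ *
          ‖dp a N (1 / 2 + u * Complex.I)‖) ^ p ≤ T ^ ε := by
  constructor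
  · intro H
    refine ⟨0, le_rfl, fun ε W hε hW => ?_⟩
    obtain ⟨C, hC⟩ := H (ε / (2 * p)) (by positivity)
    have hC0 : 0 ≤ C := by
      have := (norm_nonneg _).trans (hC 0)
      simpa using this
    obtain ⟨T₁, hT₁, hab⟩ := absorb (2 * W * (C * (2 + W) ^ (ε / (2 * p))) ^ p)
      (show 0 < ε / 2 by positivity)
    refine ⟨T₁ + W, fun T hT => ⟨fun _ => 1, 1, rfl, le_rfl, fun n _ => by simp, by simp, ?_⟩⟩
    have hT3 : 3 ≤ T := by linarith
    have hTpos : 0 < T := by linarith
    have hc : Continuous fun u : ℝ => (‖riemannZeta (1 / 2 + u * Complex.I)‖ *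
          ‖dp (fun _ => 1) 1 (1 / 2 + u * Complex.I)‖) ^ p :=
      (zeta_line_cont.norm.mul (dp_cont _ _).norm).rpow_const fun u => Or.inr hp.le
    refine (int_le_of_bound (c := (C * (2 + W) ^ (ε / (2 * p))) ^ p * T ^ (ε / 2))
      (by linarith) hc ?_).trans ?_
    · intro u hu
      have h1 : dp (fun _ => 1) 1 (1 / 2 + (u : ℂ) * Complex.I) = 1 := by
        unfold dp
        simp
      rw [h1, norm_one, mul_one]
      have h2 : (1 + |u|) ≤ (2 + W) * T := by
        rw [abs_of_pos (by linarith [hu.1])]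
        nlinarith [hu.2]
      calc ‖riemannZeta (1 / 2 + (u : ℂ) * Complex.I)‖ ^ p ≤
            (C * ((2 + W) * T) ^ (ε / (2 * p))) ^ p := by
            refine Real.rpow_le_rpow (norm_nonneg _) ((hC u).trans ?_) hp.le
            gcongr
        _ = (C * (2 + W) ^ (ε / (2 * p))) ^ p * T ^ (ε / 2) := by
            rw [Real.mul_rpow (by positivity) hTpos.le, ← mul_assoc,
              Real.mul_rpow (by positivity) (by positivity), ← Real.rpow_mul hTpos.le]
            congr 2
            field_simp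
    · have h2 := hab T (by linarith)
      calc (T + W - (T - W)) * ((C * (2 + W) ^ (ε / (2 * p))) ^ p * T ^ (ε / 2))
          = (2 * W * (C * (2 + W) ^ (ε / (2 * p))) ^ p) * T ^ (ε / 2) := by ring
        _ ≤ Real.exp (ε / 2 * Real.log T) * T ^ (ε / 2) := by gcongr
        _ = T ^ ε := by
            rw [← exp_mul_log hTpos, ← exp_mul_log hTpos, ← Real.exp_add]
            congr 1
            ring
  · rintro ⟨B, hB, H⟩
    by_contra hcon
    obtain ⟨κ, hκ, hbig⟩ := large_of_not_LH hcon
    obtain ⟨η, W, T₀, hη, hW, hT₀, hlaw⟩ := law_moll hκ hB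
    -- parameters
    set ρ : ℝ := η / (4 * W) with hρ
    have hρ0 : 0 < ρ := by positivity
    obtain ⟨T₁, hT₁⟩ := H (p * ρ) W (by positivity) hW
    obtain ⟨T₂, hT₂, hab⟩ := absorb (Real.exp (4 / (p * η) + 1)) one_pos
    obtain ⟨T, hT, hTbig⟩ := hbig (T₀ + |T₁| + T₂)
    have hT1 : T₁ ≤ T := by
      have := le_abs_self T₁
      linarith
    have hT2 : T₂ ≤ T := by
      have := abs_nonneg T₁
      linarith
    have hT0 : T₀ ≤ T := by
      have := abs_nonneg T₁
      linarith
    have hT3 : 3 ≤ T := by linarith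
    have hTpos : 0 < T := by linarith
    have hL : 4 / (p * η) + 1 ≤ Real.log T := by
      have := hab T hT2
      rw [one_mul] at this
      exact Real.exp_le_exp.1 this
    have hL0 : 0 < Real.log T := by
      have : 0 < 4 / (p * η) := by positivity
      linarith
    obtain ⟨a, N, ha1, hN, ha, hNT, hint⟩ := hT₁ T hT1
    have h1 := hlaw T hT0 hTbig a N ha1 hN ha hNT
    have h2 := mean_of_log (g := fun u : ℝ => ‖riemannZeta (1 / 2 + u * Complex.I)‖ *
        ‖dp a N (1 / 2 + u * Complex.I)‖) (zeta_line_cont.norm.mul (dp_cont _ _).norm)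
        (fun u => by positivity) hp (a := ρ * Real.log T) (T := T) (W := W) (by positivity) hW
    have h3 : 1 / p * (Real.exp (-(p * (ρ * Real.log T))) * ∫ u in (T - W)..(T + W),
        (‖riemannZeta (1 / 2 + u * Complex.I)‖ * ‖dp a N (1 / 2 + u * Complex.I)‖) ^ p) ≤ 1 / p := by
      have h4 : Real.exp (-(p * (ρ * Real.log T))) * ∫ u in (T - W)..(T + W),
          (‖riemannZeta (1 / 2 + u * Complex.I)‖ * ‖dp a N (1 / 2 + u * Complex.I)‖) ^ p ≤ 1 := by
        calc Real.exp (-(p * (ρ * Real.log T))) * ∫ u in (T - W)..(T + W),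
              (‖riemannZeta (1 / 2 + u * Complex.I)‖ * ‖dp a N (1 / 2 + u * Complex.I)‖) ^ p
            ≤ Real.exp (-(p * (ρ * Real.log T))) * T ^ (p * ρ) := by gcongr
          _ = 1 := by
              rw [← exp_mul_log hTpos, ← Real.exp_add]
              rw [show -(p * (ρ * Real.log T)) + p * ρ * Real.log T = 0 by ring, Real.exp_zero]
      calc _ ≤ 1 / p * 1 := by gcongr
        _ = 1 / p := mul_one _
    have h5 : 2 * W * (ρ * Real.log T) = η / 2 * Real.log T := by
      rw [hρ]
      field_simp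
      ring
    have h6 : 1 / p ≤ η / 4 * Real.log T := by
      have h7 : 4 / (p * η) ≤ Real.log T := by linarith
      rw [div_le_iff₀ (by positivity)] at h7
      rw [div_le_iff₀ hp]
      nlinarith
    have h8 : 0 < η * Real.log T := by positivity
    linarith [h1, h2, h3]

/-! ### multiples -/

theorem mult_crit {G : ℂ → ℂ} (han : ∀ s : ℂ, 1 / 2 ≤ s.re → AnalyticAt ℂ G s)
    {K : ℝ} (hgr : ∀ s : ℂ, 1 / 2 ≤ s.re → ‖G s‖ ≤ K * (1 + ‖s‖) ^ K) {X c : ℝ} (hc : 0 < c)
    (hrt : ∀ s : ℂ, X ≤ s.re → ‖G s‖ ≤ K) (hlo : ∀ s : ℂ, X ≤ s.re → c ≤ ‖G s‖)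
    (H : ∀ ε : ℝ, 0 < ε → ∃ C : ℝ, ∀ t : ℝ, 1 ≤ t →
      ‖riemannZeta (1 / 2 + t * Complex.I) * G (1 / 2 + t * Complex.I)‖ ≤ C * t ^ ε) : LH := by
  by_contra hcon
  obtain ⟨κ, hκ, hbig⟩ := large_of_not_LH hcon
  set A : ℝ := |K| + |X| + 2 with hA
  have hA2 : 2 ≤ A := by
    have := abs_nonneg K
    have := abs_nonneg X
    linarith
  obtain ⟨η, W, T₀, hη, hW, hT₀, hlaw⟩ := no_cancel_zl hκ hA2
  obtain ⟨C, hC⟩ := H (η / (8 * W)) (by positivity)
  obtain ⟨T₁, hT₁, hab⟩ := absorb (max |C| 1 * 2 ^ (η / (8 * W))) (show 0 < η / (8 * W) by positivity)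
  obtain ⟨T₂, hT₂, hab2⟩ := absorb (max (|K| * (2 + 2 * A) ^ |K|) 1) (show (0 : ℝ) < 1 by positivity)
  obtain ⟨T₃, hT₃, hab3⟩ := absorb (max |K| (1 / c)) hη
  obtain ⟨T, hT, hTbig⟩ := hbig (T₀ + T₁ + T₂ + T₃ + W + 1)
  have hT3 : 3 ≤ T := by linarith
  have hTpos : 0 < T := by linarith
  have hL0 : 0 < Real.log T := Real.log_pos (by linarith)
  have hG : Cls A η W T G := by
    refine ⟨fun s h1 _ => han s h1, ?_, ?_, ?_⟩
    · intro s h1 h2
      have h3 := hgr s h1
      set u := |s.im - T| with hu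
      have hu0 : 0 ≤ u := abs_nonneg _
      have h5 : 1 + ‖s‖ ≤ (2 + 2 * A) * (T * Real.exp u) := by
        have h6 := Complex.norm_le_abs_re_add_abs_im s
        have h7 : |s.re| ≤ 2 * A := by rw [abs_le]; constructor <;> linarith
        have h8 : |s.im| ≤ T + u := by
          have : s.im = T + (s.im - T) := by ring
          rw [this]
          refine (abs_add_le _ _).trans ?_
          rw [abs_of_pos hTpos]
        have h9 : 1 + u ≤ Real.exp u := by linarith [Real.add_one_le_exp u]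
        have h10 : T + u ≤ T * Real.exp u := by nlinarith
        have h11 : 1 ≤ T * Real.exp u := by nlinarith
        nlinarith
      have h6 : (1 + ‖s‖) ^ K ≤ (1 + ‖s‖) ^ |K| :=
        Real.rpow_le_rpow_of_exponent_le (by have := norm_nonneg s; linarith) (le_abs_self K)
      have h7 : T * Real.exp u = Real.exp (Real.log T + u) := by
        rw [Real.exp_add, Real.exp_log hTpos]
      have hK0 := abs_nonneg K
      calc ‖G s‖ ≤ K * (1 + ‖s‖) ^ K := h3
        _ ≤ |K| * (1 + ‖s‖) ^ |K| := by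
            gcongr
            exact le_abs_self K
        _ ≤ |K| * ((2 + 2 * A) * (T * Real.exp u)) ^ |K| := by gcongr
        _ = (|K| * (2 + 2 * A) ^ |K|) * (T * Real.exp u) ^ |K| := by
            rw [Real.mul_rpow (by positivity) (by positivity)]
            ring
        _ ≤ Real.exp (1 * Real.log T) * (T * Real.exp u) ^ |K| := by
            gcongr
            exact (le_max_left _ _).trans (hab2 T (by linarith))
        _ = Real.exp ((|K| + 1) * Real.log T + |K| * u) := by
            rw [h7, ← Real.exp_mul, ← Real.exp_add]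
            congr 1
            ring
        _ ≤ _ := by
            have := abs_nonneg X
            refine Real.exp_le_exp.2 (add_le_add ?_ ?_)
            · gcongr; linarith
            · gcongr; linarith
    · intro s h1 _ _
      have hXs : X ≤ s.re := by
        have := le_abs_self X
        have := abs_nonneg K
        linarith
      refine (hrt s hXs).trans ((le_abs_self K).trans ((le_max_left _ _).trans (hab3 T (by linarith))))
    · intro s h1 _
      have hXs : X ≤ s.re := by
        have := le_abs_self X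
        have := abs_nonneg K
        linarith
      refine le_trans ?_ (hlo s hXs)
      rw [Real.exp_neg]
      rw [inv_le_comm₀ (Real.exp_pos _) hc, ← one_div]
      exact (le_max_right _ _).trans (hab3 T (by linarith))
  have h1 := hlaw T (by linarith) hTbig G hG
  have h3 : ∫ u in (T - W)..(T + W), zl G u ≤ (T + W - (T - W)) * (3 * (η / (8 * W)) * Real.log T) := by
    refine int_le_of_bound (by linarith) (zl_cont hA2 hG) ?_
    intro u hu
    unfold zl
    refine posLog_le_of (norm_nonneg _) (by positivity) ?_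
    have hu1 : 1 ≤ u := by linarith [hu.1]
    have hu2 : u ≤ 2 * T := by linarith [hu.2]
    calc ‖riemannZeta (1 / 2 + u * Complex.I) * G (1 / 2 + u * Complex.I)‖ ≤ C * u ^ (η / (8 * W)) :=
          hC u hu1
      _ ≤ max |C| 1 * (2 * T) ^ (η / (8 * W)) := by
          have h6 : 0 ≤ u ^ (η / (8 * W)) := Real.rpow_nonneg (by linarith) _
          calc C * u ^ (η / (8 * W)) ≤ max |C| 1 * u ^ (η / (8 * W)) := by
                gcongr; exact (le_abs_self C).trans (le_max_left _ _)
            _ ≤ _ := by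
                have : 0 ≤ max |C| 1 := le_trans zero_le_one (le_max_right _ _)
                gcongr
      _ = (max |C| 1 * 2 ^ (η / (8 * W))) * T ^ (η / (8 * W)) := by
          rw [Real.mul_rpow (by norm_num) hTpos.le]
          ring
      _ ≤ Real.exp (η / (8 * W) * Real.log T) * T ^ (η / (8 * W)) := by
          gcongr
          exact hab T (by linarith)
      _ = Real.exp (2 * (η / (8 * W)) * Real.log T) := by
          rw [← exp_mul_log hTpos, ← Real.exp_add]
          congr 1
          ring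
      _ ≤ _ := by
          refine Real.exp_le_exp.2 ?_
          have : 0 < η / (8 * W) := by positivity
          gcongr
          norm_num
  have h4 : (T + W - (T - W)) * (3 * (η / (8 * W)) * Real.log T) = 3 / 4 * η * Real.log T := by
    field_simp
    ring
  rw [h4] at h3
  have h5 : 0 < η * Real.log T := by positivity
  linarith

end Pool.Agent.K7.H52.NM
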