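import Pool.Agent.K7.H52.NM.Step

/-!
Large values of zeta are not cancelled by factors.
-/

set_option autoImplicit false

open MeasureTheory Filter Topology Set Real

namespace Pool.Agent.K7.H52.NM

open Pool.Agent.Y757.LS Pool.Agent.K7.H52.SP

/-- the admissible factors -/
structure Cls (A η W T : ℝ) (G : ℂ → ℂ) : Prop where
  an : ∀ s : ℂ, 1 / 2 ≤ s.re → s.re ≤ 2 * A → AnalyticAt ℂ G s
  gr : ∀ s : ℂ, 1 / 2 ≤ s.re → s.re ≤ 2 * A → ‖G s‖ ≤ Real.exp (A * Real.log T + A * |s.im - T|)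
  rt : ∀ s : ℂ, A ≤ s.re → s.re ≤ 2 * A → |s.im - T| ≤ W → ‖G s‖ ≤ Real.exp (η * Real.log T)
  lo : ∀ s : ℂ, s.re = A → |s.im - T| ≤ W → Real.exp (-(η * Real.log T)) ≤ ‖G s‖

lemma Cls.mono {A η W η' W' T : ℝ} {G : ℂ → ℂ} (hT : 1 ≤ T) (h : Cls A η W T G) (hη : η ≤ η')
    (hW : W' ≤ W) : Cls A η' W' T G where
  an := h.an
  gr := h.gr
  rt := fun s h1 h2 h3 => (h.rt s h1 h2 (h3.trans hW)).trans (Real.exp_le_exp.2 (by
    have := Real.log_nonneg hT
    gcongr))
  lo := fun s h1 h2 => le_trans (Real.exp_le_exp.2 (by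
    have := Real.log_nonneg hT
    have : η * Real.log T ≤ η' * Real.log T := by gcongr
    linarith)) (h.lo s h1 (h2.trans hW))

/-- the function `GG * G` on the line -/
noncomputable def gl (G : ℂ → ℂ) (u : ℝ) : ℝ :=
  log⁺ ‖GG (1 / 2 + u * Complex.I) * G (1 / 2 + u * Complex.I)‖

lemma gl_continuous {A η W T : ℝ} {G : ℂ → ℂ} (hA : 2 ≤ A) (h : Cls A η W T G) :
    Continuous (gl G) := by
  rw [continuous_iff_continuousAt]
  intro u
  have hre : (1 / 2 + (u : ℂ) * Complex.I).re = 1 / 2 := by simp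
  have h1 : ContinuousAt (fun s => GG s * G s) (1 / 2 + u * Complex.I) :=
    ((GG_analyticAt (by rw [hre]; norm_num)).mul (h.an _ hre.ge (by rw [hre]; linarith))).continuousAt
  have h2 : ContinuousAt (fun u : ℝ => (fun s => GG s * G s) (1 / 2 + u * Complex.I)) u :=
    ContinuousAt.comp (f := fun u : ℝ => (1 / 2 : ℂ) + u * Complex.I) h1 (by fun_prop)
  exact (continuous_posLog.continuousAt).comp h2.norm

lemma gl_mono {A η W T : ℝ} {G : ℂ → ℂ} (hA : 2 ≤ A) (h : Cls A η W T G) {V U I : ℝ} (hV : 0 ≤ V)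
    (hVU : V ≤ U) (hI : ∫ u in (T - U)..(T + U), gl G u ≤ I) :
    ∫ u in (T - V)..(T + V), gl G u ≤ I := by
  refine le_trans ?_ hI
  have hc := gl_continuous hA h
  refine intervalIntegral.integral_mono_interval (by linarith) (by linarith) (by linarith) ?_
    (hc.intervalIntegrable _ _)
  exact Filter.Eventually.of_forall fun u => posLog_nonneg

lemma posLog_le_of {x y : ℝ} (hx : 0 ≤ x) (hy : 0 ≤ y) (h : x ≤ Real.exp y) : log⁺ x ≤ y := by
  refine (posLog_le_posLog hx h).trans (le_of_eq ?_)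
  rw [posLog_eq_log (by rw [abs_of_pos (Real.exp_pos _)]; exact Real.one_le_exp hy), Real.log_exp]

lemma le_of_posLog {x y : ℝ} (h : log⁺ x ≤ y) : x ≤ Real.exp y := by
  rcases le_or_gt x 0 with h0 | h0
  · exact h0.trans (Real.exp_pos _).le
  · have h1 : Real.log x ≤ log⁺ x := by
      rw [posLog_apply]; exact le_max_right _ _
    rw [← Real.log_le_iff_le_exp h0]
    exact h1.trans h

lemma F_growth {A : ℝ} (hA : 2 ≤ A) : ∃ T₀ : ℝ, 3 ≤ T₀ ∧ ∀ T : ℝ, T₀ ≤ T → ∀ (η W : ℝ) (G : ℂ → ℂ),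
    Cls A η W T G → ∀ s : ℂ, 1 / 2 ≤ s.re → s.re ≤ 2 * A → AnalyticAt ℂ (fun s => GG s * G s) s ∧
      log⁺ ‖GG s * G s‖ ≤ (A + 5) * Real.log T + (A + 4) * |s.im - T| := by
  obtain ⟨C, hC, hG⟩ := GG_growth
  obtain ⟨T₁, hT₁, hab⟩ := absorb (C * (2 * A + 2) ^ 4) one_pos
  refine ⟨T₁, hT₁, ?_⟩
  intro T hT η W G hcl s h1 h2
  have hT3 : 3 ≤ T := hT₁.trans hT
  have hTpos : 0 < T := by linarith
  have hL0 : 0 ≤ Real.log T := Real.log_nonneg (by linarith)
  refine ⟨(GG_analyticAt (by linarith)).mul (hcl.an s h1 h2), ?_⟩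
  have hu0 : 0 ≤ |s.im - T| := abs_nonneg _
  have h3 := hG s (by linarith)
  have h4 := hcl.gr s h1 h2
  set u := |s.im - T| with hu
  refine posLog_le_of (norm_nonneg _) (by positivity) ?_
  rw [norm_mul]
  have h5 : ‖s‖ + 1 ≤ (2 * A + 2) * (T * Real.exp u) := by
    have h6 := Complex.norm_le_abs_re_add_abs_im s
    have h7 : |s.re| ≤ 2 * A := by rw [abs_le]; constructor <;> linarith
    have h8 : |s.im| ≤ T + u := by
      have : s.im = T + (s.im - T) := by ring
      rw [this]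
      refine (abs_add_le _ _).trans ?_
      rw [abs_of_pos hTpos]
    have h9 : 1 + u ≤ Real.exp u := by linarith [Real.add_one_le_exp u]
    have h10 : T + u ≤ T * Real.exp u := by nlinarith
    have h11 : 1 ≤ T * Real.exp u := by nlinarith
    nlinarith
  have hexpT : Real.exp (Real.log T) = T := Real.exp_log hTpos
  calc ‖GG s‖ * ‖G s‖ ≤ (C * ((2 * A + 2) * (T * Real.exp u)) ^ 4) *
        Real.exp (A * Real.log T + A * u) := by
        gcongr
        exact h3.trans (by gcongr)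
    _ = (C * (2 * A + 2) ^ 4) * (T * Real.exp u) ^ 4 * Real.exp (A * Real.log T + A * u) := by ring
    _ ≤ Real.exp (1 * Real.log T) * (T * Real.exp u) ^ 4 * Real.exp (A * Real.log T + A * u) := by
        gcongr
        exact hab T hT
    _ = _ := by
        have : (T * Real.exp u) ^ 4 = Real.exp (4 * (Real.log T + u)) := by
          rw [show T * Real.exp u = Real.exp (Real.log T + u) by rw [Real.exp_add, hexpT],
            ← Real.exp_nat_mul]
          norm_num
        rw [this, ← Real.exp_add, ← Real.exp_add]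
        congr 1
        ring

/-- the bounds on the lines `Re s = 1/2 + (A - 1/2) / 2^n` -/
theorem prop_n {A : ℝ} (hA : 2 ≤ A) (n : ℕ) : ∀ ε W₀ : ℝ, 0 < ε → 0 ≤ W₀ →
    ∃ η W T₀ : ℝ, 0 < η ∧ W₀ ≤ W ∧ 3 ≤ T₀ ∧ ∀ T : ℝ, T₀ ≤ T → ∀ G : ℂ → ℂ, Cls A η W T G →
      ∫ u in (T - W)..(T + W), gl G u ≤ η * Real.log T →
      ∀ s : ℂ, s.re = 1 / 2 + (A - 1 / 2) / 2 ^ n → |s.im - T| ≤ W₀ →
        log⁺ ‖GG s * G s‖ ≤ ε * Real.log T := by
  induction n with
  | zero =>
    intro ε W₀ hε hW₀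
    obtain ⟨M, hM0, hM⟩ := H448R2.GC.X1.zeta_bdd
    obtain ⟨T₁, hT₁, hab⟩ := absorb M (show 0 < ε / 2 by positivity)
    refine ⟨ε / 2, W₀, T₁, by positivity, le_rfl, hT₁, ?_⟩
    intro T hT G hcl _ s hs1 hs2
    have hL0 : 0 ≤ Real.log T := Real.log_nonneg (by linarith)
    have hre : s.re = A := by rw [hs1]; simp
    have h1 := hcl.rt s hre.ge (by rw [hre]; linarith) hs2
    have h2 : ‖GG s‖ ≤ Real.exp (ε / 2 * Real.log T) := by
      rw [GG_of_ne (ne_one_of_re' (by rw [hre]; linarith)), norm_mul]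
      have h3 := ratio_le (s := s) (by rw [hre]; linarith)
      have h4 := hM s (by rw [hre]; linarith)
      calc ‖(s - 1) / (s + 3)‖ * ‖riemannZeta s‖ ≤ 1 * M := by gcongr
        _ ≤ _ := by rw [one_mul]; exact hab T hT
    refine posLog_le_of (norm_nonneg _) (by positivity) ?_
    rw [norm_mul]
    calc ‖GG s‖ * ‖G s‖ ≤ Real.exp (ε / 2 * Real.log T) * Real.exp (ε / 2 * Real.log T) := by
          gcongr
      _ = _ := by rw [← Real.exp_add]; congr 1; ring
  | succ n ih =>
    intro ε W₀ hε hW₀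
    set h : ℝ := (A - 1 / 2) / 2 ^ (n + 1) with hh
    have hh0 : 0 < h := by
      have : 0 < A - 1 / 2 := by linarith
      positivity
    have h2h : 2 * h = (A - 1 / 2) / 2 ^ n := by
      rw [hh, pow_succ]; field_simp
    have h2hA : 2 * h ≤ A - 1 / 2 := by
      rw [h2h]
      apply div_le_self (by linarith)
      exact one_le_pow₀ (by norm_num)
    have hK := Kk_nonneg hh0
    set W' : ℝ := W₀ + 1 + 4 * ((A + 5) + (A + 4) * (1 + W₀)) * Kk h / ε with hW'
    have hW'1 : W₀ + 1 ≤ W' := by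
      have : 0 ≤ 4 * ((A + 5) + (A + 4) * (1 + W₀)) * Kk h / ε := by positivity
      linarith
    obtain ⟨η₁, W₁, T₁, a1, a2, a3, a4⟩ := ih ε W' hε (by linarith)
    obtain ⟨T₂, hT₂, hgr⟩ := F_growth hA
    refine ⟨min η₁ (ε * h), W₁, T₁ + T₂, lt_min a1 (by positivity), by linarith, by linarith, ?_⟩
    intro T hT G hcl hI s hs1 hs2
    have hT3 : 3 ≤ T := by linarith
    have hL1 : 1 ≤ Real.log T := by
      rw [Real.le_log_iff_exp_le (by linarith)]
      exact Real.exp_one_lt_three.le.trans hT3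
    have hcl1 : Cls A η₁ W₁ T G := hcl.mono (by linarith) (min_le_left _ _) le_rfl
    have hI1 : ∫ u in (T - W₁)..(T + W₁), gl G u ≤ η₁ * Real.log T := by
      refine hI.trans ?_
      have := min_le_left η₁ (ε * h)
      gcongr
    have hline := a4 T (by linarith) G hcl1 hI1
    have hI2 := gl_mono hA hcl (V := W') (U := W₁) (by linarith) a2 hI
    have hst := half_step (F := fun s => GG s * G s) (T := T) (A₀ := (A + 5) * Real.log T)
      (B₀ := A + 4) (H := 2 * A) (h := h) (V := W₀) (W := W')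
      (I := min η₁ (ε * h) * Real.log T) (R := ε * Real.log T) hh0 (by linarith) (by positivity)
      (by linarith) hW₀ (by linarith) (by positivity)
      (fun z hz1 hz2 => hgr T (by linarith) _ _ G hcl z hz1 hz2) hI2
      (fun z hz1 hz2 => hline z (by rw [hz1, h2h]) hz2) (z₀ := s) hs1 hs2
    refine hst.trans ?_
    have hWW : 0 < W' - W₀ := by linarith
    have t1 : min η₁ (ε * h) * Real.log T / (4 * h) ≤ ε / 4 * Real.log T := by
      rw [div_le_iff₀ (by positivity)]
      calc min η₁ (ε * h) * Real.log T ≤ (ε * h) * Real.log T := by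
            gcongr
            exact min_le_right _ _
        _ = _ := by ring
    have t2 : ((A + 5) * Real.log T + (A + 4) * (1 + W₀)) / (W' - W₀) * Kk h ≤ ε / 4 * Real.log T := by
      rw [div_mul_eq_mul_div, div_le_iff₀ hWW]
      have h5 : (A + 5) * Real.log T + (A + 4) * (1 + W₀) ≤
          ((A + 5) + (A + 4) * (1 + W₀)) * Real.log T := by
        have : 0 ≤ (A + 4) * (1 + W₀) := by positivity
        nlinarith
      have h6 : ε / 4 * (W' - W₀) = ε / 4 + ((A + 5) + (A + 4) * (1 + W₀)) * Kk h := by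
        rw [hW']; field_simp; ring
      calc ((A + 5) * Real.log T + (A + 4) * (1 + W₀)) * Kk h
          ≤ (((A + 5) + (A + 4) * (1 + W₀)) * Real.log T) * Kk h := by gcongr
        _ = (((A + 5) + (A + 4) * (1 + W₀)) * Kk h) * Real.log T := by ring
        _ ≤ (ε / 4 * (W' - W₀)) * Real.log T := by
            rw [h6]
            gcongr
            linarith
        _ = _ := by ring
    linarith

/-- bounds in the whole strip -/
theorem strip_bound {A x ε W₀ : ℝ} (hA : 2 ≤ A) (hx : 0 < x) (hε : 0 < ε) (hW₀ : 0 ≤ W₀) :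
    ∃ η W T₀ : ℝ, 0 < η ∧ W₀ ≤ W ∧ 3 ≤ T₀ ∧ ∀ T : ℝ, T₀ ≤ T → ∀ G : ℂ → ℂ, Cls A η W T G →
      ∫ u in (T - W)..(T + W), gl G u ≤ η * Real.log T →
      ∀ s : ℂ, 1 / 2 + x ≤ s.re → s.re ≤ 2 * A → |s.im - T| ≤ W₀ →
        ‖GG s * G s‖ ≤ Real.exp (ε * Real.log T) := by
  obtain ⟨n, hn⟩ : ∃ n : ℕ, (A - 1 / 2) / 2 ^ n ≤ min x 1 := by
    have hm : 0 < min x 1 := lt_min hx one_pos
    obtain ⟨n, hn⟩ := pow_unbounded_of_one_lt ((A - 1 / 2) / min x 1) (one_lt_two (α := ℝ))
    refine ⟨n, ?_⟩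
    rw [div_le_iff₀ (by positivity)]
    rw [div_lt_iff₀ hm] at hn
    linarith
  set a : ℝ := 1 / 2 + (A - 1 / 2) / 2 ^ n with ha
  have hpos : 0 < (A - 1 / 2) / 2 ^ n := by
    have : 0 < A - 1 / 2 := by linarith
    positivity
  have hax : a ≤ 1 / 2 + x := by have := min_le_left x 1; linarith
  have ha1 : a < A := by have := min_le_right x 1; linarith
  obtain ⟨Wl, hWl, hltl⟩ := ltl (a := a) (b := A) (α := ε / 2) (β := ε / 2) (B := A + 6)
    (ε := ε / 2) ha1 (by linarith) (by positivity)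
  obtain ⟨η, W, T₁, b1, b2, b3, b4⟩ := prop_n hA n (ε / 2) (W₀ + Wl) (by positivity) (by linarith)
  obtain ⟨T₂, hT₂, hgr⟩ := F_growth hA
  obtain ⟨M, hM0, hM⟩ := H448R2.GC.X1.zeta_bdd
  obtain ⟨T₃, hT₃, hab⟩ := absorb M (show 0 < ε / 4 by positivity)
  obtain ⟨T₄, hT₄, hab'⟩ := absorb (Real.exp ((A + 4) * (W₀ + Wl))) one_pos
  refine ⟨min η (ε / 4), W, T₁ + T₂ + T₃ + T₄, lt_min b1 (by positivity), by linarith, by linarith, ?_⟩
  intro T hT G hcl hI s hs1 hs2 hs3
  have hT3 : 3 ≤ T := by linarith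
  have hL0 : 0 < Real.log T := Real.log_pos (by linarith)
  have hcl1 : Cls A η W T G := hcl.mono (by linarith) (min_le_left _ _) le_rfl
  have hcl2 : Cls A (ε / 4) W T G := hcl.mono (by linarith) (min_le_right _ _) le_rfl
  have hI1 : ∫ u in (T - W)..(T + W), gl G u ≤ η * Real.log T := by
    refine hI.trans ?_
    have := min_le_left η (ε / 4)
    gcongr
  have hline := b4 T (by linarith) G hcl1 hI1
  -- to the right of `A`
  have hright : ∀ z : ℂ, A ≤ z.re → z.re ≤ 2 * A → |z.im - T| ≤ W →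
      ‖GG z * G z‖ ≤ Real.exp (ε / 2 * Real.log T) := by
    intro z hz1 hz2 hz3
    have h1 := hcl2.rt z hz1 hz2 hz3
    have h2 : ‖GG z‖ ≤ Real.exp (ε / 4 * Real.log T) := by
      rw [GG_of_ne (ne_one_of_re' (by linarith)), norm_mul]
      have h3 := ratio_le (s := z) (by linarith)
      have h4 := hM z (by linarith)
      calc ‖(z - 1) / (z + 3)‖ * ‖riemannZeta z‖ ≤ 1 * M := by gcongr
        _ ≤ _ := by rw [one_mul]; exact hab T (by linarith)
    rw [norm_mul]
    calc ‖GG z‖ * ‖G z‖ ≤ Real.exp (ε / 4 * Real.log T) * Real.exp (ε / 4 * Real.log T) := by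
          gcongr
      _ = _ := by rw [← Real.exp_add]; congr 1; ring
  rcases le_total A s.re with h | h
  · refine (hright s h hs2 (hs3.trans (by linarith))).trans (Real.exp_le_exp.2 ?_)
    gcongr
    linarith
  · have hsW := abs_le.1 hs3
    have h3 := hltl (Real.log T) hL0.le (fun s => GG s * G s) s.im
      (fun w hw1 hw2 _ => (hgr T (by linarith) _ _ G hcl w (by linarith)
        (by linarith)).1.differentiableAt)
      (fun w hw1 hw2 hw3 => by
        have h4 := (hgr T (by linarith) _ _ G hcl w (by linarith) (by linarith)).2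
        have h5 : |w.im - T| ≤ W₀ + Wl := by
          have := abs_le.1 hw3
          rw [abs_le]
          constructor <;> linarith
        refine (le_of_posLog h4).trans (Real.exp_le_exp.2 ?_)
        have h6 := hab' T (by linarith)
        have h7 : (A + 4) * (W₀ + Wl) ≤ 1 * Real.log T := Real.exp_le_exp.1 h6
        have h8 : (A + 4) * |w.im - T| ≤ (A + 4) * (W₀ + Wl) := by gcongr
        linarith)
      (fun w hw1 hw => by
        have h5 : |w.im - T| ≤ W₀ + Wl := by
          have := abs_le.1 hw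
          rw [abs_le]
          constructor <;> linarith
        exact le_of_posLog (hline w hw1 h5))
      (fun w hw1 hw => by
        have h5 : |w.im - T| ≤ W := by
          have := abs_le.1 hw
          rw [abs_le]
          constructor <;> linarith
        exact hright w hw1.ge (by rw [hw1]; linarith) h5)
      s (by linarith) h rfl
    refine h3.trans (Real.exp_le_exp.2 (mul_le_mul_of_nonneg_right ?_ hL0.le))
    rw [sub_self, zero_mul]
    linarith

end Pool.Agent.K7.H52.NM
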