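import Pool.Agent.K7.H52.NM.Law
import Pool.Agent.K7.H52.SP.Few

/-!
Large values of zeta are not cancelled by factors: the law.
-/

set_option autoImplicit false

open MeasureTheory Filter Topology Set Real

namespace Pool.Agent.K7.H52.NM

open Pool.Agent.Y757.LS Pool.Agent.K7.H52.SP H370 H370.Loc

lemma GG_order {z : ℂ} (hz : 0 < z.im) (hz2 : -3 < z.re) :
    analyticOrderAt GG z = analyticOrderAt riemannZeta z := by
  have hne : z ≠ 1 := ne_one_of_im' hz
  have hev : GG =ᶠ[𝓝 z] (fun s => (s - 1) / (s + 3)) * riemannZeta := by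
    filter_upwards [isOpen_compl_singleton.mem_nhds hne] with w hw
    exact GG_of_ne hw
  have h3 : z + 3 ≠ 0 := add_three_ne hz2
  have h1 : AnalyticAt ℂ (fun s : ℂ => (s - 1) / (s + 3)) z := by
    refine AnalyticAt.div (by fun_prop) (by fun_prop) h3
  have h2 : (z - 1) / (z + 3) ≠ 0 := div_ne_zero (sub_ne_zero.2 hne) h3
  rw [analyticOrderAt_congr hev, analyticOrderAt_mul h1 (zeta_an hne),
    h1.analyticOrderAt_eq_zero.2 h2, zero_add]

lemma mult_le_mul {F G : ℂ → ℂ} {z : ℂ} (hF : AnalyticAt ℂ F z) (hG : AnalyticAt ℂ G z)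
    (h : analyticOrderAt (fun s => F s * G s) z ≠ ⊤) : mult F z ≤ mult (fun s => F s * G s) z := by
  have h1 : analyticOrderAt (fun s => F s * G s) z = analyticOrderAt F z + analyticOrderAt G z :=
    analyticOrderAt_mul hF hG
  unfold mult analyticOrderNatAt
  rw [h1] at h ⊢
  exact ENat.toNat_le_toNat le_self_add h

theorem no_cancel {κ A : ℝ} (hκ : 0 < κ) (hA : 2 ≤ A) :
    ∃ η W T₀ : ℝ, 0 < η ∧ 0 < W ∧ 3 ≤ T₀ ∧ ∀ T : ℝ, T₀ ≤ T →
      T ^ κ ≤ ‖riemannZeta (1 / 2 + T * Complex.I)‖ → ∀ G : ℂ → ℂ, Cls A η W T G →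
        η * Real.log T < ∫ u in (T - W)..(T + W), gl G u := by
  classical
  obtain ⟨δ, η₁, W₁, T₁, a1, a2, a3, a4, hlaw⟩ := law_right [] (θ := 1 / 2) le_rfl (by norm_num) hκ
  set d : ℝ := min δ (1 / 2) with hd
  have hd0 : 0 < d := lt_min a1 (by norm_num)
  have hd1 : d ≤ δ := min_le_left _ _
  have hd2 : d ≤ 1 / 2 := min_le_right _ _
  set R : ℝ := A - 1 / 2 - d / 4 with hR
  set r : ℝ := A - 1 / 2 - 3 * d / 4 with hr
  have hr0 : 0 < r := by linarith
  have hrR : r < R := by linarith
  have hlogpos : 0 < Real.log (R / r) := Real.log_pos (by rw [lt_div_iff₀ hr0]; linarith)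
  set N : ℝ := (⌊2 * W₁ / (d / 4)⌋₊ : ℝ) + 1 with hN
  have hN0 : 0 < N := by positivity
  set ε : ℝ := η₁ * Real.log (R / r) / (4 * N) with hε
  have hε0 : 0 < ε := by positivity
  obtain ⟨η, W, T₂, b1, b2, b3, hsb⟩ := strip_bound hA (x := d / 4) (ε := ε) (W₀ := W₁ + R + 1)
    (by positivity) hε0 (by linarith)
  obtain ⟨Az, hAz1, hAz⟩ := DH31.zeta_bounds (a := 2) (by norm_num)
  obtain ⟨T₃, hT₃, hab⟩ := absorb (5 * Az) (show 0 < ε / 2 by positivity)
  refine ⟨min η (ε / 2), W, T₁ + T₂ + T₃ + W₁ + R + 2, lt_min b1 (by positivity), by linarith,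
    by linarith, ?_⟩
  intro T hT hbig G hcl
  by_contra hcon
  push Not at hcon
  have hT3 : 3 ≤ T := by linarith
  have hL0 : 0 < Real.log T := Real.log_pos (by linarith)
  have hcl1 : Cls A η W T G := hcl.mono (by linarith) (min_le_left _ _) le_rfl
  have hcl2 : Cls A (ε / 2) W T G := hcl.mono (by linarith) (min_le_right _ _) le_rfl
  have hI1 : ∫ u in (T - W)..(T + W), gl G u ≤ η * Real.log T := by
    refine hcon.trans ?_
    have := min_le_left η (ε / 2)
    gcongr
  have hbd := hsb T (by linarith) G hcl1 hI1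
  obtain ⟨S, hS1, hS2⟩ := hlaw T (by linarith) (1 / 2 + T * Complex.I) (by simp) (by simp) hbig
  have hop : op [] = riemannZeta := rfl
  rw [hop] at hS2
  set F : ℂ → ℂ := fun s => GG s * G s with hF
  have hcov := cover (f := riemannZeta) (T := T) (W := W₁) (h := d / 4)
    (b := 2 * ε * Real.log T / Real.log (R / r)) (by positivity) a3 S (fun s hs => (hS1 s hs).2) (by
      intro t ht S' hS' hS'2
      have htW := abs_le.1 ht
      set c : ℂ := ⟨A, t⟩ with hc
      have hFan : ∀ z : ℂ, 1 / 2 ≤ z.re → z.re ≤ 2 * A → AnalyticAt ℂ F z := fun z h1 h2 =>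
        (GG_analyticAt (by linarith)).mul (hcl.an z h1 h2)
      set S'' : Finset ℂ := S'.filter (fun s => s.re < 1) with hS''
      have hsum : ∑ s ∈ S', (mult riemannZeta s : ℝ) = ∑ s ∈ S'', (mult riemannZeta s : ℝ) := by
        rw [hS'', Finset.sum_filter]
        refine Finset.sum_congr rfl fun s hs => ?_
        by_cases h : s.re < 1
        · rw [if_pos h]
        · rw [if_neg h]
          push Not at h
          have him := abs_le.1 (hS1 s (hS' hs)).2
          rw [mult_zero (zeta_an (ne_one_of_im' (by linarith)))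
            (riemannZeta_ne_zero_of_one_le_re h)]
          simp
      rw [hsum]
      have hwin : ∀ z ∈ Metric.closedBall c R, 1 / 2 + d / 4 ≤ z.re ∧ z.re ≤ 2 * A ∧
          |z.im - T| ≤ W₁ + R + 1 ∧ 0 < z.im := by
        intro z hz
        obtain ⟨h1, h2, h3, h4⟩ := ball_coord hz
        simp only [hc] at h1 h2 h3 h4
        refine ⟨by linarith, by linarith, abs_le.2 ⟨by linarith, by linarith⟩, by linarith⟩
      have hFball : AnalyticOnNhd ℂ F (Metric.closedBall c R) := fun z hz =>
        hFan z (by linarith [(hwin z hz).1]) (hwin z hz).2.1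
      have hlow : Real.exp (-(ε * Real.log T)) ≤ ‖F c‖ := by
        have h1 := hcl2.lo c rfl (by
          show |t - T| ≤ W
          linarith)
        have h2 : 1 / (5 * Az) ≤ ‖GG c‖ := by
          have hcre : c.re = A := rfl
          rw [GG_of_ne (ne_one_of_re' (by rw [hcre]; linarith)), norm_mul]
          have h3 := ratio_ge (s := c) (by rw [hcre]; linarith) (η := 1) one_pos (by
            have := Complex.abs_re_le_norm (c - 1)
            rw [Complex.sub_re, hcre, Complex.one_re, abs_of_pos (by linarith)] at this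
            linarith)
          have h4 := (hAz c (by rw [hcre]; exact hA)).2
          calc 1 / (5 * Az) = (1 + 4 / 1)⁻¹ * (1 / Az) := by norm_num; ring
            _ ≤ _ := by gcongr
        have h5 := hab T (by linarith)
        have h6 : Real.exp (-(ε / 2 * Real.log T)) ≤ 1 / (5 * Az) := by
          rw [Real.exp_neg, ← one_div]
          exact one_div_le_one_div_of_le (by positivity) h5
        show _ ≤ ‖GG c * G c‖
        rw [norm_mul]
        calc Real.exp (-(ε * Real.log T)) = Real.exp (-(ε / 2 * Real.log T)) *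
              Real.exp (-(ε / 2 * Real.log T)) := by rw [← Real.exp_add]; congr 1; ring
          _ ≤ ‖GG c‖ * ‖G c‖ := by
              gcongr
              exact h6.trans h2
      have hFc : F c ≠ 0 := by
        intro h0
        rw [h0, norm_zero] at hlow
        exact absurd hlow (not_le.2 (Real.exp_pos _))
      have hS3 : ∀ s ∈ S'', s ∈ Metric.closedBall c r := by
        intro s hs
        rw [hS'', Finset.mem_filter] at hs
        obtain ⟨hs1, hs2⟩ := hs
        have h1 := (hS1 s (hS' hs1)).1
        have h2 := hS'2 s hs1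
        rw [Metric.mem_closedBall, dist_eq_norm]
        refine (Complex.norm_le_abs_re_add_abs_im _).trans ?_
        have e1 : (s - c).re = s.re - A := by simp [hc]
        have e2 : (s - c).im = s.im - t := by simp [hc]
        rw [e1, e2]
        have h3 : |s.re - A| ≤ A - 1 / 2 - d := by
          rw [abs_le]
          constructor <;> linarith
        linarith
      have hmm : ∑ s ∈ S'', (mult riemannZeta s : ℝ) ≤ ∑ s ∈ S'', (mult F s : ℝ) := by
        refine Finset.sum_le_sum fun s hs => ?_
        have hsR := Metric.closedBall_subset_closedBall hrR.le (hS3 s hs)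
        obtain ⟨g1, g2, g3, g4⟩ := hwin s hsR
        have hord : analyticOrderAt F s ≠ ⊤ :=
          order_ne_top (convex_closedBall c R).isPreconnected hFball
            (Metric.mem_closedBall_self (by linarith)) hFc hsR
        have h1 : mult riemannZeta s = mult GG s := by
          unfold mult analyticOrderNatAt
          rw [GG_order g4 (by linarith)]
        rw [h1]
        exact_mod_cast mult_le_mul (GG_analyticAt (by linarith)) (hcl.an s (by linarith) g2) hord
      refine hmm.trans ?_
      exact jn (R := R) (r := r) (η := ε) (L := Real.log T) (c := c) hr0 hrR (by positivity)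
        hFball (fun z hz => hbd z (hwin z hz).1 (hwin z hz).2.1 (hwin z hz).2.2.1) hlow S'' hS3)
  have e : ((⌊2 * W₁ / (d / 4)⌋₊ : ℝ) + 1) = N := rfl
  rw [e] at hcov
  have h9 : N * (2 * ε * Real.log T / Real.log (R / r)) = η₁ / 2 * Real.log T := by
    rw [hε]; field_simp; ring
  rw [h9] at hcov
  nlinarith

end Pool.Agent.K7.H52.NM
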