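import Pool.Agent.Y757.LS.D
import Pool.Agent.K7.H52.SP.Main

/-!
From a mean value of `log⁺ |F|` over a window of the line `Re s = 1/2` to bounds inside the half plane.
-/

set_option autoImplicit false

open MeasureTheory Filter Topology Set Real

namespace Pool.Agent.K7.H52.NM

open Pool.Agent.Y757.LS

/-- second moment of the kernel -/
noncomputable def Kk (h : ℝ) : ℝ := ∫ y : ℝ, (1 + y ^ 2) * ker h y

lemma Kk_nonneg {h : ℝ} (hh : 0 < h) : 0 ≤ Kk h :=
  integral_nonneg fun y => mul_nonneg (by positivity) (ker_pos hh y).le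

lemma ker_le_half {h : ℝ} (hh : 0 < h) (y : ℝ) : ker h y ≤ 1 / (2 * h) := by
  rw [Pool.Agent.Y757.LS.ker]
  apply one_div_le_one_div_of_le (by positivity)
  have := Real.one_le_cosh (π * y / (2 * h))
  nlinarith

theorem half_step {F : ℂ → ℂ} {T A₀ B₀ H h V W I R : ℝ} (hh : 0 < h) (hH : 1 / 2 + 2 * h ≤ H)
    (hA : 0 ≤ A₀) (hB : 0 ≤ B₀) (hV : 0 ≤ V) (hVW : V < W) (hR : 0 ≤ R)
    (hF : ∀ z : ℂ, 1 / 2 ≤ z.re → z.re ≤ H →
      AnalyticAt ℂ F z ∧ log⁺ ‖F z‖ ≤ A₀ + B₀ * |z.im - T|)
    (hI : ∫ u in (T - W)..(T + W), log⁺ ‖F (1 / 2 + u * Complex.I)‖ ≤ I)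
    (hRt : ∀ z : ℂ, z.re = 1 / 2 + 2 * h → |z.im - T| ≤ W → log⁺ ‖F z‖ ≤ R)
    {z₀ : ℂ} (hz : z₀.re = 1 / 2 + h) (hzV : |z₀.im - T| ≤ V) :
    log⁺ ‖F z₀‖ ≤ I / (4 * h) + R / 2 + (A₀ + B₀ * (1 + V)) / (W - V) * Kk h := by
  have hWV : 0 < W - V := by linarith
  set t := z₀.im with ht
  have hzV' := abs_le.1 hzV
  have hstrip : ∀ z : ℂ, |z.re - z₀.re| ≤ h → 1 / 2 ≤ z.re ∧ z.re ≤ H := by
    intro z hz'
    have := abs_le.1 hz'
    rw [hz] at this
    constructor <;> linarith
  have hsp := strip_poisson (F := F) (z₀ := z₀) (h := h) (A := A₀ + B₀ * V) (B := B₀) hh hB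
    (fun z hz' => (hF z (hstrip z hz').1 (hstrip z hz').2).1)
    (fun z hz' => by
      refine (hF z (hstrip z hz').1 (hstrip z hz').2).2.trans ?_
      have h1 : |z.im - T| ≤ |z.im - z₀.im| + V := by
        have : z.im - T = (z.im - z₀.im) + (z₀.im - T) := by ring
        rw [this]
        exact (abs_add_le _ _).trans (by linarith)
      nlinarith)
  refine hsp.trans ?_
  set gL : ℝ → ℝ := fun y => log⁺ ‖F (z₀ - h + y * Complex.I)‖ with hgL
  set gR : ℝ → ℝ := fun y => log⁺ ‖F (z₀ + h + y * Complex.I)‖ with hgR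
  set q : ℝ := (A₀ + B₀ * (1 + V)) / (W - V) with hq
  have hq0 : 0 ≤ q := by positivity
  have hLre : ∀ y : ℝ, (z₀ - h + y * Complex.I).re = 1 / 2 := by intro y; simp [hz]
  have hLim : ∀ y : ℝ, (z₀ - h + y * Complex.I).im = t + y := by intro y; simp [ht]
  have hRre : ∀ y : ℝ, (z₀ + h + y * Complex.I).re = 1 / 2 + 2 * h := by
    intro y; simp [hz]; ring
  have hRim : ∀ y : ℝ, (z₀ + h + y * Complex.I).im = t + y := by intro y; simp [ht]
  have hLeq : ∀ y : ℝ, (z₀ - h + y * Complex.I) = 1 / 2 + ((t + y : ℝ) : ℂ) * Complex.I := by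
    intro y
    apply Complex.ext
    · rw [hLre]; simp
    · rw [hLim]; simp
  have hcontL : Continuous gL := by
    rw [continuous_iff_continuousAt]
    intro y
    have h1 := (hF (z₀ - h + y * Complex.I) (hLre y).ge (by rw [hLre]; linarith)).1.continuousAt
    have h2 : ContinuousAt (fun y : ℝ => F (z₀ - h + y * Complex.I)) y :=
      ContinuousAt.comp (f := fun y : ℝ => z₀ - (h : ℂ) + y * Complex.I) h1 (by fun_prop)
    exact (continuous_posLog.continuousAt).comp h2.norm
  have hcontR : Continuous gR := by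
    rw [continuous_iff_continuousAt]
    intro y
    have h1 := (hF (z₀ + h + y * Complex.I) (by rw [hRre]; linarith) (by rw [hRre]; exact hH)).1.continuousAt
    have h2 : ContinuousAt (fun y : ℝ => F (z₀ + h + y * Complex.I)) y :=
      ContinuousAt.comp (f := fun y : ℝ => z₀ + (h : ℂ) + y * Complex.I) h1 (by fun_prop)
    exact (continuous_posLog.continuousAt).comp h2.norm
  have hLb : ∀ y : ℝ, gL y ≤ (A₀ + B₀ * V) + B₀ * |y| := by
    intro y
    have h1 := (hF (z₀ - h + y * Complex.I) (hLre y).ge (by rw [hLre]; linarith)).2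
    rw [hLim] at h1
    refine h1.trans ?_
    have h2 : |t + y - T| ≤ V + |y| := by
      have : t + y - T = (t - T) + y := by ring
      rw [this]
      exact (abs_add_le _ _).trans (by linarith)
    nlinarith
  have hRb : ∀ y : ℝ, gR y ≤ (A₀ + B₀ * V) + B₀ * |y| := by
    intro y
    have h1 := (hF (z₀ + h + y * Complex.I) (by rw [hRre]; linarith) (by rw [hRre]; exact hH)).2
    rw [hRim] at h1
    refine h1.trans ?_
    have h2 : |t + y - T| ≤ V + |y| := by
      have : t + y - T = (t - T) + y := by ring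
      rw [this]
      exact (abs_add_le _ _).trans (by linarith)
    nlinarith
  have hL0 : ∀ y, 0 ≤ gL y := fun y => posLog_nonneg
  have hR0 : ∀ y, 0 ≤ gR y := fun y => posLog_nonneg
  have hy : ∀ y : ℝ, |y| ≤ 1 + y ^ 2 := by
    intro y
    rw [← sq_abs]
    nlinarith [sq_nonneg (|y| - 1), abs_nonneg y]
  have habs : ∀ y : ℝ, (A₀ + B₀ * V) + B₀ * |y| ≤ (A₀ + B₀ * (1 + V)) * (1 + y ^ 2) := by
    intro y
    have h1 := hy y
    have h2 : B₀ * |y| ≤ B₀ * (1 + y ^ 2) := by gcongr
    have h3 : 0 ≤ (A₀ + B₀ * V) * y ^ 2 := by positivity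
    nlinarith
  -- the tail
  have htail : ∀ y : ℝ, W < |t + y - T| → (A₀ + B₀ * V) + B₀ * |y| ≤ q * (1 + y ^ 2) := by
    intro y hy'
    have h1 : W - V ≤ |y| := by
      have : |t + y - T| ≤ V + |y| := by
        have : t + y - T = (t - T) + y := by ring
        rw [this]
        exact (abs_add_le _ _).trans (by linarith)
      linarith
    rw [hq, div_mul_eq_mul_div, le_div_iff₀ hWV]
    have h2 : 0 ≤ |y| := abs_nonneg y
    have h3 := hy y
    have h4 : |y| * |y| ≤ 1 + y ^ 2 := by rw [← sq, sq_abs]; linarith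
    have h5 : (A₀ + B₀ * V) * (W - V) ≤ (A₀ + B₀ * V) * (1 + y ^ 2) := by
      gcongr; linarith
    have h6 : B₀ * |y| * (W - V) ≤ B₀ * (1 + y ^ 2) := by
      calc B₀ * |y| * (W - V) ≤ B₀ * |y| * |y| := by gcongr
        _ = B₀ * (|y| * |y|) := by ring
        _ ≤ _ := by gcongr
    nlinarith
  set Wd : Set ℝ := {y : ℝ | |t + y - T| ≤ W} with hWd
  have hWdeq : Wd = Icc (T - W - t) (T + W - t) := by
    ext y
    simp only [hWd, mem_ofPred_eq, mem_Icc, abs_le]
    constructor
    · rintro ⟨a, b⟩; constructor <;> linarith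
    · rintro ⟨a, b⟩; constructor <;> linarith
  have hWdm : MeasurableSet Wd := by rw [hWdeq]; exact measurableSet_Icc
  -- pointwise bound
  have hpt : ∀ y : ℝ, (gL y + gR y) / 2 * ker h y ≤
      (1 / (4 * h)) * Wd.indicator gL y + (R / 2) * ker h y + q * ((1 + y ^ 2) * ker h y) := by
    intro y
    have hk := ker_pos hh y
    have hk2 := ker_le_half hh y
    by_cases hyW : y ∈ Wd
    · rw [indicator_of_mem hyW]
      have h1 : gR y ≤ R := hRt _ (hRre y) (by rw [hRim]; exact hyW)
      have h2 : gL y * ker h y ≤ gL y * (1 / (2 * h)) := mul_le_mul_of_nonneg_left hk2 (hL0 y)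
      have h3 : gR y * ker h y ≤ R * ker h y := mul_le_mul_of_nonneg_right h1 hk.le
      have h4 : 0 ≤ q * ((1 + y ^ 2) * ker h y) := by positivity
      have h5 : 1 / (4 * h) * gL y = gL y * (1 / (2 * h)) / 2 := by
        field_simp; ring
      rw [h5]
      linarith
    · rw [indicator_of_notMem hyW]
      have hyW' : W < |t + y - T| := by
        by_contra hcon
        push Not at hcon
        exact hyW hcon
      have h1 := (hLb y).trans (htail y hyW')
      have h2 := (hRb y).trans (htail y hyW')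
      have h3 : (gL y + gR y) / 2 * ker h y ≤ q * (1 + y ^ 2) * ker h y := by
        gcongr; linarith
      have h4 : 0 ≤ R / 2 * ker h y := by positivity
      nlinarith
  have hint1 : Integrable (fun y => (gL y + gR y) / 2 * ker h y) := by
    refine ker_integrable_of_le hh ?_ (A := A₀ + B₀ * (1 + V)) ?_
    · exact ((hcontL.add hcontR).div_const 2).aestronglyMeasurable
    · intro y
      rw [abs_of_nonneg (by have := hL0 y; have := hR0 y; positivity)]
      have := hLb y
      have := hRb y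
      have := habs y
      linarith
  have hint2 : Integrable (Wd.indicator gL) := by
    rw [integrable_indicator_iff hWdm, hWdeq]
    exact hcontL.integrableOn_Icc
  have hint3 := ker_integrable hh
  have hint4 := ker_sq_integrable hh
  have hmono := integral_mono hint1
    (((hint2.const_mul (1 / (4 * h))).add (hint3.const_mul (R / 2))).add (hint4.const_mul q)) hpt
  refine hmono.trans ?_
  have e1 : ∫ y : ℝ, ((1 / (4 * h)) * Wd.indicator gL y + (R / 2) * ker h y +
      q * ((1 + y ^ 2) * ker h y)) =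
      1 / (4 * h) * (∫ y, Wd.indicator gL y) + R / 2 * 1 + q * Kk h := by
    have i1 := hint2.const_mul (1 / (4 * h))
    have i2 := hint3.const_mul (R / 2)
    have i3 := hint4.const_mul q
    have a1 := integral_add (i1.add i2) i3
    have a2 := integral_add i1 i2
    simp only [Pi.add_apply] at a1 a2
    rw [a1, a2, integral_const_mul, integral_const_mul, integral_const_mul, integral_ker hh]
    rfl
  have e2 : ∫ y, Wd.indicator gL y = ∫ u in (T - W)..(T + W), log⁺ ‖F (1 / 2 + u * Complex.I)‖ := by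
    rw [integral_indicator hWdm, hWdeq, integral_Icc_eq_integral_Ioc,
      ← intervalIntegral.integral_of_le (by linarith)]
    have h1 := intervalIntegral.integral_comp_add_left
      (a := T - W - t) (b := T + W - t) (fun u : ℝ => log⁺ ‖F (1 / 2 + u * Complex.I)‖) t
    have h2 : ∀ y : ℝ, gL y = log⁺ ‖F (1 / 2 + ((t + y : ℝ) : ℂ) * Complex.I)‖ := by
      intro y
      simp only [hgL]
      rw [hLeq]
    simp only [h2]
    rw [h1]
    congr 1 <;> ring
  calc _ = 1 / (4 * h) * (∫ y, Wd.indicator gL y) + R / 2 * 1 + q * Kk h := e1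
    _ ≤ 1 / (4 * h) * I + R / 2 * 1 + q * Kk h := by
        rw [e2]
        gcongr
    _ = _ := by ring

end Pool.Agent.K7.H52.NM
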